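import Pool.Agent.Work.MP_a6e60d_ag.Perf.Dev

/-!
# MP_a6e60d_ag: bounded resolutions of objects of a derived category

`BdTo P b K`: the object `K` of the derived category is represented by a bounded complex of objects
of `P` which is zero in degrees `> b`.

`bdTo_of_bddIn`: if `P` has enough objects for the class `Q` and `Ext^n(P, Q) = 0` for `n > 0`, if
the objects of `Q` have finite resolutions by objects of `P`, all `K` with bounded cohomology in `Q`
are of this form.
-/

open CategoryTheory Limits Pretriangulated DerivedCategory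

namespace Orl.Perf

universe w v u

variable {C : Type u} [Category.{v} C] [Abelian C] [HasDerivedCategory.{w} C]

/-- a morphism to an object in one degree is a morphism of complexes if the source is zero in
larger degrees -/
theorem exists_lift_single (L : CochainComplex C ℤ) (b : ℤ) [L.IsStrictlyLE b] (M : C)
    (f : Q.obj L ⟶ Q.obj ((CochainComplex.singleFunctor C b).obj M)) :
    ∃ φ : L ⟶ (CochainComplex.singleFunctor C b).obj M, Q.map φ = f := by
  let Y : CochainComplex C ℤ := (CochainComplex.singleFunctor C b).obj M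
  obtain ⟨Y', hY1, hY2, g, s, hs, hf⟩ :=
    left_fac_of_isStrictlyLE_of_isStrictlyGE (X := L) (Y := Y) b b f
  obtain ⟨M', ⟨e⟩⟩ : ∃ M', Nonempty (Y' ≅ (CochainComplex.singleFunctor C b).obj M') :=
    Y'.exists_iso_single b
  obtain ⟨t, ht⟩ := (CochainComplex.singleFunctor C b).map_surjective (s ≫ e.hom)
  have h1 : IsIso ((singleFunctor C b).map t) := by
    change IsIso (Q.map ((CochainComplex.singleFunctor C b).map t))
    rw [ht, Q.map_comp]
    infer_instance
  have h2 : IsIso t := isIso_of_reflects_iso t (singleFunctor C b)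
  have h3 : IsIso (s ≫ e.hom) := by
    have h3 : IsIso ((CochainComplex.singleFunctor C b).map t) := inferInstance
    rwa [ht] at h3
  have h4 : IsIso s := IsIso.of_isIso_comp_right s e.hom
  refine ⟨g ≫ inv s, ?_⟩
  rw [Q.map_comp, Q.map_inv, hf]

/-- `K` is represented by a bounded complex of objects of `P`, zero in degrees `> b` -/
def BdTo (P : ObjectProperty C) (b : ℤ) (K : DerivedCategory C) : Prop :=
  ∃ (a : ℤ) (L : CochainComplex C ℤ), L.IsStrictlyGE a ∧ L.IsStrictlyLE b ∧ (∀ i, P (L.X i)) ∧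
    Nonempty (Q.obj L ≅ K)

variable {P Q' : ObjectProperty C}

lemma BdTo.of_iso {b : ℤ} {K K' : DerivedCategory C} (e : K ≅ K') (h : BdTo P b K) :
    BdTo P b K' := by
  obtain ⟨a, L, h1, h2, h3, ⟨i⟩⟩ := h
  exact ⟨a, L, h1, h2, h3, ⟨i ≪≫ e⟩⟩

lemma BdTo.mono {b : ℤ} {P' : ObjectProperty C} (hP : P ≤ P') {K : DerivedCategory C}
    (h : BdTo P b K) : BdTo P' b K := by
  obtain ⟨a, L, h1, h2, h3, h4⟩ := h
  exact ⟨a, L, h1, h2, fun i => hP _ (h3 i), h4⟩

lemma BdTo.of_le {b b' : ℤ} (hb : b ≤ b') {K : DerivedCategory C} (h : BdTo P b K) :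
    BdTo P b' K := by
  obtain ⟨a, L, h1, h2, h3, h4⟩ := h
  exact ⟨a, L, h1, L.isStrictlyLE_of_le b b' hb, h3, h4⟩

/-- an object in one degree -/
lemma bdTo_single [P.ContainsZero] [P.IsClosedUnderIsomorphisms] {M : C} (hM : P M) (b : ℤ) :
    BdTo P b ((singleFunctor C b).obj M) := by
  refine ⟨b, (CochainComplex.singleFunctor C b).obj M, inferInstance, inferInstance,
    fun i => ?_, ⟨Iso.refl _⟩⟩
  by_cases h : i = b
  · subst h
    exact P.prop_of_iso (HomologicalComplex.singleObjXSelf (ComplexShape.up ℤ) i M).symm hM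
  · exact P.prop_of_isZero (HomologicalComplex.isZero_single_obj_X (ComplexShape.up ℤ) _ _ _ h)

/-- the cone of a morphism to an object in degree `b` -/
theorem BdTo.cone [P.ContainsZero] [P.IsClosedUnderIsomorphisms]
    (hP : ∀ A B, P A → P B → P (A ⊞ B)) {b : ℤ} {T : Triangle (DerivedCategory C)}
    (hT : T ∈ distTriang _) (h₁ : BdTo P b T.obj₁) {M : C} (hM : P M)
    (e : T.obj₂ ≅ (singleFunctor C b).obj M) : BdTo P b T.obj₃ := by
  obtain ⟨a, L, h1, h2, h3, ⟨i⟩⟩ := h₁
  let e' : T.obj₂ ≅ Q.obj ((CochainComplex.singleFunctor C b).obj M) := e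
  obtain ⟨φ, hφ⟩ := exists_lift_single L b M (i.hom ≫ T.mor₁ ≫ e'.hom)
  have hT' := mappingCone_triangle_distinguished φ
  let E := isoTriangleOfIso₁₂ _ T hT' hT i e'.symm (by
    change Q.map φ ≫ e'.inv = i.hom ≫ T.mor₁
    rw [hφ]
    simp)
  have hX : ∀ j, (CochainComplex.mappingCone φ).X j ≅
      L.X (j + 1) ⊞ ((CochainComplex.singleFunctor C b).obj M).X j := fun j =>
    HomologicalComplex.homotopyCofiber.XIsoBiprod φ j (j + 1) rfl
  refine ⟨min (a - 1) b, CochainComplex.mappingCone φ, ?_, ?_, fun j => ?_,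
    ⟨Triangle.π₃.mapIso E⟩⟩
  · rw [CochainComplex.isStrictlyGE_iff]
    intro j hj
    rw [CochainComplex.mappingCone.isZero_X_iff]
    exact ⟨L.isZero_of_isStrictlyGE a _ (by lia),
      CochainComplex.isZero_of_isStrictlyGE _ b _ (by lia)⟩
  · rw [CochainComplex.isStrictlyLE_iff]
    intro j hj
    rw [CochainComplex.mappingCone.isZero_X_iff]
    exact ⟨L.isZero_of_isStrictlyLE b _ (by lia),
      CochainComplex.isZero_of_isStrictlyLE _ b _ (by lia)⟩
  · refine P.prop_of_iso (hX j).symm (hP _ _ (h3 _) ?_)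
    by_cases h : j = b
    · subst h
      exact P.prop_of_iso (HomologicalComplex.singleObjXSelf (ComplexShape.up ℤ) j M).symm hM
    · exact P.prop_of_isZero (HomologicalComplex.isZero_single_obj_X (ComplexShape.up ℤ) _ _ _ h)

/-- the distinguished triangle of a short exact sequence in degree `b` -/
theorem exists_triangle_single {S : ShortComplex C} (hS : S.ShortExact) (b : ℤ) :
    ∃ δ : (singleFunctor C b).obj S.X₃ ⟶ ((singleFunctor C b).obj S.X₁)⟦(1 : ℤ)⟧,
      Triangle.mk ((singleFunctor C b).map S.f) ((singleFunctor C b).map S.g) δ ∈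
        distTriang _ := by
  have hS' := hS.map_of_exact (HomologicalComplex.single C (ComplexShape.up ℤ) b)
  exact ⟨triangleOfSESδ hS', triangleOfSES_distinguished hS'⟩

/-- the step for objects in one degree -/
theorem BdTo.step [P.ContainsZero] [P.IsClosedUnderIsomorphisms]
    (hP : ∀ A B, P A → P B → P (A ⊞ B)) {b : ℤ} {S : ShortComplex C} (hS : S.ShortExact)
    (h₂ : P S.X₂) (h₁ : BdTo P b ((singleFunctor C b).obj S.X₁)) :
    BdTo P b ((singleFunctor C b).obj S.X₃) := by
  obtain ⟨δ, hT⟩ := exists_triangle_single hS b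
  exact BdTo.cone hP hT h₁ h₂ (Iso.refl _)

/-- the vanishing for two objects in one degree -/
theorem hom_single_single_eq_zero {M N : C} (hM : ∀ (j : ℕ) (f : (singleFunctor C 0).obj M ⟶
      ((singleFunctor C 0).obj N)⟦((j + 1 : ℕ) : ℤ)⟧), f = 0) {a b : ℤ} (h : a < b)
      (f : (singleFunctor C b).obj M ⟶ (singleFunctor C a).obj N) : f = 0 := by
  obtain ⟨j, hj⟩ : ∃ j : ℕ, ((j + 1 : ℕ) : ℤ) = b - a := ⟨(b - a - 1).toNat, by lia⟩
  apply (shiftFunctor (DerivedCategory C) b).map_injective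
  let α : ((singleFunctor C b).obj M)⟦b⟧ ≅ (singleFunctor C 0).obj M :=
    ((singleFunctors C).shiftIso b 0 b (by lia)).app M
  let β : ((singleFunctor C a).obj N)⟦b⟧ ≅ (singleFunctor C (a - b)).obj N :=
    ((singleFunctors C).shiftIso b (a - b) a (by lia)).app N
  let γ : ((singleFunctor C 0).obj N)⟦((j + 1 : ℕ) : ℤ)⟧ ≅ (singleFunctor C (a - b)).obj N :=
    ((singleFunctors C).shiftIso ((j + 1 : ℕ) : ℤ) (a - b) 0 (by lia)).app N
  have h1 := hM j (α.inv ≫ f⟦b⟧' ≫ β.hom ≫ γ.inv)
  rw [Functor.map_zero]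
  rw [← cancel_epi α.inv, ← cancel_mono (β.hom ≫ γ.inv), Category.assoc, h1, comp_zero,
    zero_comp]

/-- truncations -/
theorem exists_trunc (K : DerivedCategory C) (c : ℤ) :
    ∃ (X₁ X₃ : DerivedCategory C) (g : X₁ ⟶ K) (q : K ⟶ X₃) (δ : X₃ ⟶ X₁⟦(1 : ℤ)⟧),
      Triangle.mk g q δ ∈ distTriang _ ∧ X₁.IsLE c ∧ X₃.IsGE (c + 1) ∧
      (∀ i, i ≤ c → IsIso ((homologyFunctor C i).map g)) ∧
      (∀ i, c < i → IsIso ((homologyFunctor C i).map q)) ∧
      (∀ a, K.IsGE a → X₁.IsGE a) ∧ (∀ b, K.IsLE b → X₃.IsLE b) := by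
  obtain ⟨X₁, X₃, h₁, h₃, g, q, δ, hT⟩ := TStructure.t.exists_triangle K c (c + 1) rfl
  have h₁' : X₁.IsLE c := ⟨h₁⟩
  have h₃' : X₃.IsGE (c + 1) := ⟨h₃⟩
  have k₁ : ∀ i, i ≤ c → IsIso ((homologyFunctor C i).map g) := fun i hi =>
    homology_iso_left hT (i - 1) i (by lia) (X₃.isZero_of_isGE (c + 1) _ (by lia))
      (X₃.isZero_of_isGE (c + 1) _ (by lia))
  have k₃ : ∀ i, c < i → IsIso ((homologyFunctor C i).map q) := fun i hi =>
    homology_iso_right hT i (i + 1) rfl (X₁.isZero_of_isLE c _ (by lia))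
      (X₁.isZero_of_isLE c _ (by lia))
  refine ⟨X₁, X₃, g, q, δ, hT, h₁', h₃', k₁, k₃, fun a ha => ?_, fun b hb => ?_⟩
  · rw [isGE_iff]
    intro i hi
    by_cases h : i ≤ c
    · have := k₁ i h
      exact (K.isZero_of_isGE a i hi).of_iso (asIso ((homologyFunctor C i).map g))
    · exact X₁.isZero_of_isLE c i (by lia)
  · rw [isLE_iff]
    intro i hi
    by_cases h : c < i
    · have := k₃ i h
      exact (K.isZero_of_isLE b i hi).of_iso (asIso ((homologyFunctor C i).map q)).symm
    · exact X₃.isZero_of_isGE (c + 1) i (by lia)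

/-- an object concentrated in degree `a` -/
theorem exists_single_homology (X : DerivedCategory C) (a : ℤ) (h1 : X.IsGE a) (h2 : X.IsLE a) :
    Nonempty (X ≅ (singleFunctor C a).obj ((homologyFunctor C a).obj X)) := by
  obtain ⟨N, ⟨e⟩⟩ := X.exists_iso_singleFunctor_obj_of_isGE_of_isLE a
  exact ⟨e ≪≫ (singleFunctor C a).mapIso ((homologyFunctor C a).mapIso e ≪≫
    (singleFunctorCompHomologyFunctorIso C a).app N).symm⟩

/-- an object in degree `b` -/
theorem bddIn_single [Q'.ContainsZero] [Q'.IsClosedUnderIsomorphisms] {M : C} (hM : Q' M)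
    (b : ℤ) : BddIn Q' ((singleFunctor C b).obj M) := by
  refine ⟨⟨b, b, inferInstance, inferInstance⟩, fun j => ?_⟩
  by_cases hj : j = b
  · subst hj
    exact Q'.prop_of_iso ((singleFunctorCompHomologyFunctorIso C j).symm.app M) hM
  · rcases lt_or_gt_of_ne hj with hj | hj
    · exact Q'.prop_of_isZero (isZero_of_isGE _ b _ hj)
    · exact Q'.prop_of_isZero (isZero_of_isLE _ b _ hj)

/-- Vanishing of morphisms from an object in degree `b` to objects in smaller degrees. -/
theorem hom_single_eq_zero [Q'.ContainsZero] [Q'.IsClosedUnderIsomorphisms] {M : C}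
    (hM : ∀ N, Q' N → ∀ (j : ℕ) (f : (singleFunctor C 0).obj M ⟶
      ((singleFunctor C 0).obj N)⟦((j + 1 : ℕ) : ℤ)⟧), f = 0) (b : ℤ) (n : ℕ) :
    ∀ (Y : DerivedCategory C) (a : ℤ), Y.IsGE a → Y.IsLE (a + n) → a + n < b →
      (∀ i, Q' ((homologyFunctor C i).obj Y)) →
      ∀ f : (singleFunctor C b).obj M ⟶ Y, f = 0 := by
  induction n with
  | zero =>
    intro Y a h1 h2 h3 h4 f
    obtain ⟨e⟩ := exists_single_homology Y a h1 (by simpa using h2)
    rw [← cancel_mono e.hom, zero_comp]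
    exact hom_single_single_eq_zero (hM _ (h4 a)) (by lia) _
  | succ n ih =>
    intro Y a h1 h2 h3 h4 f
    obtain ⟨X₁, X₃, g, p, δ, hT, h₁, h₃, k₁, k₃, l₁, l₃⟩ := exists_trunc Y a
    have hp : f ≫ p = 0 := by
      refine ih X₃ (a + 1) h₃ ?_ (by push_cast at h3; lia) (fun i => ?_) _
      · have := l₃ _ h2
        push_cast at this
        rwa [add_comm (n : ℤ) 1, ← add_assoc] at this
      · by_cases hi : a < i
        · have := k₃ i hi
          exact Q'.prop_of_iso (asIso ((homologyFunctor C i).map p)) (h4 i)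
        · exact Q'.prop_of_isZero (X₃.isZero_of_isGE (a + 1) i (by lia))
    obtain ⟨f', hf'⟩ : ∃ f' : (singleFunctor C b).obj M ⟶ X₁, f = f' ≫ g :=
      Triangle.coyoneda_exact₂ _ hT f hp
    obtain ⟨e⟩ := exists_single_homology X₁ a (l₁ a h1) h₁
    have hN : Q' ((homologyFunctor C a).obj X₁) := by
      have := k₁ a le_rfl
      exact Q'.prop_of_iso (asIso ((homologyFunctor C a).map g)).symm (h4 a)
    have h0 : f' ≫ e.hom = 0 := hom_single_single_eq_zero (hM _ hN) (by lia) _
    have h0' : f' = 0 := by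
      rw [← cancel_mono e.hom, h0, zero_comp]
    rw [hf', h0', zero_comp]

/-- **Resolutions**: objects with bounded cohomology in `Q'`. -/
theorem bdTo_of_homology [P.ContainsZero] [P.IsClosedUnderIsomorphisms]
    [Q'.ContainsZero] [Q'.IsClosedUnderIsomorphisms] [Q'.IsClosedUnderKernels]
    [Q'.IsClosedUnderCokernels] [Q'.IsClosedUnderExtensions]
    (hP : ∀ A B, P A → P B → P (A ⊞ B)) (hPQ : P ≤ Q')
    (hvan : ∀ M N, P M → Q' N → ∀ (j : ℕ) (f : (singleFunctor C 0).obj M ⟶
      ((singleFunctor C 0).obj N)⟦((j + 1 : ℕ) : ℤ)⟧), f = 0)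
    (hepi : ∀ N, Q' N → ∃ (M : C) (_ : P M) (p : M ⟶ N), Epi p)
    (hres : ∀ N, Q' N → ∀ b, BdTo P b ((singleFunctor C b).obj N)) (n : ℕ) :
    ∀ (K : DerivedCategory C) (a : ℤ), K.IsGE a → K.IsLE (a + n) →
      (∀ i, Q' ((homologyFunctor C i).obj K)) → BdTo P (a + n) K := by
  induction n with
  | zero =>
    intro K a h1 h2 h4
    obtain ⟨e⟩ := exists_single_homology K a h1 (by simpa using h2)
    have h5 := (hres _ (h4 a) a).of_iso e.symm
    simpa using h5
  | succ n ih =>
    intro K a h1 h2 h4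
    obtain ⟨b, hb⟩ : ∃ b : ℤ, b = a + (n + 1 : ℕ) := ⟨_, rfl⟩
    rw [← hb] at h2 ⊢
    obtain ⟨M, hM, p, hp⟩ := hepi _ (h4 b)
    -- the morphism to the top cohomology
    obtain ⟨X₁, X₃, g, q, δ, hT, h₁, h₃, k₁, k₃, l₁, l₃⟩ := exists_trunc K (b - 1)
    have hq := k₃ b (by lia)
    obtain ⟨e⟩ := exists_single_homology X₃ b (by simpa using h₃) (l₃ b h2)
    let f₃ : (singleFunctor C b).obj M ⟶ X₃ :=
      (singleFunctor C b).map (p ≫ (homologyFunctor C b).map q) ≫ e.inv
    have hf₃ : Epi ((homologyFunctor C b).map f₃) := by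
      have h5 : Epi ((homologyFunctor C b).map
          ((singleFunctor C b).map (p ≫ (homologyFunctor C b).map q))) := by
        have h7 := NatIso.naturality_2 (singleFunctorCompHomologyFunctorIso C b)
          (p ≫ (homologyFunctor C b).map q)
        have h8 : Epi ((𝟭 C).map (p ≫ (homologyFunctor C b).map q)) :=
          inferInstanceAs (Epi (p ≫ (homologyFunctor C b).map q))
        change Epi ((singleFunctor C b ⋙ homologyFunctor C b).map
          (p ≫ (homologyFunctor C b).map q))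
        rw [← h7]
        infer_instance
      rw [Functor.map_comp]
      infer_instance
    have hδ : f₃ ≫ δ = 0 := by
      have g1 : X₁.IsGE a := l₁ a h1
      refine hom_single_eq_zero (Q' := Q') (fun N hN => hvan M N hM hN) b n _ (a - 1)
        (TStructure.t.isGE_shift X₁ a 1 (a - 1) (by lia)) ?_ (by lia)
        (fun i => ?_) _
      · have := TStructure.t.isLE_shift X₁ (b - 1) 1 (b - 2) (by lia)
        have e1 : a - 1 + (n : ℤ) = b - 2 := by
          push_cast at hb
          lia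
        rw [e1]
        exact this
      · have h9 : Q' ((homologyFunctor C (1 + i)).obj X₁) := by
          by_cases hi : 1 + i ≤ b - 1
          · have := k₁ (1 + i) hi
            exact Q'.prop_of_iso (asIso ((homologyFunctor C (1 + i)).map g)).symm (h4 _)
          · exact Q'.prop_of_isZero (X₁.isZero_of_isLE (b - 1) _ (by lia))
        exact Q'.prop_of_iso (((homologyFunctor C 0).shiftIso 1 i (1 + i) rfl).symm.app X₁) h9
    obtain ⟨f, hf⟩ : ∃ f : (singleFunctor C b).obj M ⟶ K, f₃ = f ≫ q :=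
      Triangle.coyoneda_exact₂ _ (rot_of_distTriang _ hT) f₃ hδ
    have hfe : Epi ((homologyFunctor C b).map f) := by
      rw [hf, Functor.map_comp] at hf₃
      have h10 : (homologyFunctor C b).map f =
          ((homologyFunctor C b).map f ≫ (homologyFunctor C b).map q) ≫
            inv ((homologyFunctor C b).map q) := by
        rw [Category.assoc, IsIso.hom_inv_id, Category.comp_id]
      rw [h10]
      infer_instance
    obtain ⟨F, i, ε, hF⟩ := distinguished_cocone_triangle₁ f
    have hFb : BddIn Q' F := by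
      have h11 := inv_rot_of_distTriang _ hF
      exact bddIn_of_triangle h11 (BddIn.shift ⟨⟨a, b, h1, h2⟩, h4⟩ (-1))
        (bddIn_single (hPQ _ hM) b)
    have hF1 : F.IsGE (a + 1) := by
      rw [isGE_iff]
      intro j hj
      have h12 := HomologySequence.exact₁ _ hF (j - 1) j (by lia)
      refine ShortComplex.Exact.isZero_of_both_zeros h12 ?_ ?_
      · exact (isZero_of_isGE K a _ (by lia)).eq_of_src _ _
      · exact (isZero_of_isGE ((singleFunctor C b).obj M) b _ (by lia)).eq_of_tgt _ _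
    have hF2 : F.IsLE b := by
      rw [isLE_iff]
      intro j hj
      have h12 := HomologySequence.exact₁ _ hF (j - 1) j (by lia)
      refine ShortComplex.Exact.isZero_of_both_zeros h12 ?_ ?_
      · by_cases hjb : j - 1 = b
        · have h13 := HomologySequence.comp_δ _ hF (j - 1) j (by lia)
          subst hjb
          have h14 : Epi ((homologyFunctor C (j - 1)).map (Triangle.mk i f ε).mor₂) := hfe
          rw [← cancel_epi ((homologyFunctor C (j - 1)).map (Triangle.mk i f ε).mor₂), h13,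
            comp_zero]
        · exact (isZero_of_isLE K b _ (by lia)).eq_of_src _ _
      · exact (isZero_of_isLE ((singleFunctor C b).obj M) b _ (by lia)).eq_of_tgt _ _
    have e1 : a + 1 + (n : ℤ) = b := by
      push_cast at hb
      lia
    have h15 := ih F (a + 1) hF1 (by rw [e1]; exact hF2) hFb.2
    rw [e1] at h15
    exact BdTo.cone hP hF h15 hM (Iso.refl _)

/-- **Resolutions**: objects with bounded cohomology in `Q'`. -/
theorem bdTo_of_bddIn [P.ContainsZero] [P.IsClosedUnderIsomorphisms]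
    [Q'.ContainsZero] [Q'.IsClosedUnderIsomorphisms] [Q'.IsClosedUnderKernels]
    [Q'.IsClosedUnderCokernels] [Q'.IsClosedUnderExtensions]
    (hP : ∀ A B, P A → P B → P (A ⊞ B)) (hPQ : P ≤ Q')
    (hvan : ∀ M N, P M → Q' N → ∀ (j : ℕ) (f : (singleFunctor C 0).obj M ⟶
      ((singleFunctor C 0).obj N)⟦((j + 1 : ℕ) : ℤ)⟧), f = 0)
    (hepi : ∀ N, Q' N → ∃ (M : C) (_ : P M) (p : M ⟶ N), Epi p)
    (hres : ∀ N, Q' N → ∀ b, BdTo P b ((singleFunctor C b).obj N))
    {K : DerivedCategory C} (hK : BddIn Q' K) : ∃ b, BdTo P b K := by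
  obtain ⟨⟨a, b, ha, hb⟩, h⟩ := hK
  have : K.IsLE (a + (b - a).toNat) := TStructure.t.isLE_of_le K b _ (by lia)
  exact ⟨_, bdTo_of_homology hP hPQ hvan hepi hres (b - a).toNat K a ha this h⟩

end Orl.Perf
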