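import Pool.Agent.Work.MP_a6e60d_ag.Perf.Groth
import Mathlib.Algebra.Homology.DerivedCategory.DerivabilityStructureInjectives

/-!
# MP_a6e60d_ag: K-injective resolutions of bounded below complexes
-/

set_option autoImplicit false

open CategoryTheory Limits AlgebraicGeometry DerivedCategory

universe u v w

namespace Orl.Perf

variable {C : Type u} [Category.{v} C] [Abelian C] [EnoughInjectives C]

/-- **K-injective resolutions** of bounded below complexes: a quasi-isomorphism to a bounded below
complex of injective objects. -/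
theorem exists_kinj (K : CochainComplex C ℤ) (n : ℤ) [K.IsStrictlyGE n] :
    ∃ (J : CochainComplex C ℤ) (i : K ⟶ J), QuasiIso i ∧ J.IsStrictlyGE n ∧
      (∀ m, Injective (J.X m)) ∧ J.IsKInjective := by
  obtain ⟨J, i, hi, hJ, hn⟩ :=
    CochainComplex.Plus.modelCategoryQuillen.exists_quasiIso_injective K n
  exact ⟨J, i, hi, hn, hJ, CochainComplex.isKInjective_of_injective J n⟩

/-- K-injective resolutions of bounded below objects of the derived category -/
theorem exists_kinj_of_isGE [HasDerivedCategory.{w} C] (Y : DerivedCategory C) (n : ℤ)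
    [Y.IsGE n] : ∃ J : CochainComplex C ℤ, J.IsStrictlyGE n ∧ (∀ m, Injective (J.X m)) ∧
      J.IsKInjective ∧ Nonempty (Q.obj J ≅ Y) := by
  obtain ⟨K, _, ⟨e⟩⟩ := exists_iso_Q_obj_of_isGE Y n
  obtain ⟨J, i, hi, h1, h2, h3⟩ := exists_kinj K n
  exact ⟨J, h1, h2, h3, ⟨(asIso (Q.map i)).symm ≪≫ e.symm⟩⟩

/-- K-injective resolutions of objects -/
theorem exists_kinj_single [HasDerivedCategory.{w} C] (M : C) :
    ∃ J : CochainComplex C ℤ, J.IsStrictlyGE 0 ∧ (∀ m, Injective (J.X m)) ∧
      J.IsKInjective ∧ Nonempty (Q.obj J ≅ (singleFunctor C 0).obj M) :=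
  exists_kinj_of_isGE _ 0

end Orl.Perf
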