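import Mathlib.AlgebraicGeometry.Modules.Sheaf
import Mathlib.Algebra.Category.ModuleCat.Presheaf.Generator
import Mathlib.CategoryTheory.Abelian.GrothendieckAxioms.Sheaf
import Mathlib.CategoryTheory.Abelian.GrothendieckCategory.EnoughInjectives
import Mathlib.Algebra.Category.Grp.AB

/-!
# MP_a6e60d_ag: the category of sheaves of modules on a scheme is a Grothendieck category
-/

set_option autoImplicit false

open CategoryTheory Limits AlgebraicGeometry

universe u v w w'

namespace Orl.Groth

section presheaf

variable {C : Type u} [Category.{v} C] (R : Cᵒᵖ ⥤ RingCat.{u})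

instance : ReflectsFiniteLimits (PresheafOfModules.toPresheaf.{u} R) where
  reflects _ _ _ := inferInstance

instance (K : Type u) [SmallCategory K] [IsFiltered K] :
    HasExactColimitsOfShape K (PresheafOfModules.{u} R) :=
  HasExactColimitsOfShape.domain_of_functor K (PresheafOfModules.toPresheaf.{u} R)

end presheaf

section sheaf

variable {C : Type u} [SmallCategory C] {J : GrothendieckTopology C} (R : Sheaf J RingCat.{u})
  [HasSheafify J AddCommGrpCat.{u}] [J.WEqualsLocallyBijective AddCommGrpCat.{u}]

instance (K : Type u) [SmallCategory K] [IsFiltered K] :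
    HasExactColimitsOfShape K (SheafOfModules.{u} R) := by
  have := (PresheafOfModules.sheafificationAdjunction (𝟙 R.obj)).hasExactColimitsOfShape K
  exact this

instance : AB5OfSize.{u, u} (SheafOfModules.{u} R) where
  ofShape _ _ _ := inferInstance

/-- the sheaves of modules associated to the free presheaves on representable presheaves -/
noncomputable def gen (X : C) : SheafOfModules.{u} R :=
  (PresheafOfModules.sheafification (𝟙 R.obj)).obj
    ((PresheafOfModules.free R.obj).obj (yoneda.obj X))

theorem isSeparating_gen : ObjectProperty.IsSeparating (.ofObj (gen R)) := by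
  intro M N f g h
  let adj := PresheafOfModules.sheafificationAdjunction (𝟙 R.obj)
  apply (SheafOfModules.forget R ⋙ PresheafOfModules.restrictScalars (𝟙 R.obj)).map_injective
  refine PresheafOfModules.freeYoneda.isSeparating R.obj _ _ ?_
  rintro _ ⟨X⟩ a
  apply (adj.homEquiv _ _).symm.injective
  have h1 := h _ (ObjectProperty.ofObj_apply (gen R) X) ((adj.homEquiv _ _).symm a)
  exact (adj.homEquiv_naturality_right_symm a f).trans
    (h1.trans (adj.homEquiv_naturality_right_symm a g).symm)

instance : HasSeparator (SheafOfModules.{u} R) :=
  ⟨⟨_, (isSeparating_gen R).isSeparator_coproduct⟩⟩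

instance : IsGrothendieckAbelian.{u} (SheafOfModules.{u} R) where

end sheaf

/-- **Sheaves of modules on a scheme form a Grothendieck category.** -/
instance (X : Scheme.{u}) : IsGrothendieckAbelian.{u} X.Modules :=
  inferInstanceAs (IsGrothendieckAbelian.{u} (SheafOfModules.{u} X.ringCatSheaf))

example (X : Scheme.{u}) : EnoughInjectives X.Modules := inferInstance

end Orl.Groth
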