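import Pool.Agent.Work.MP_a6e60d_ag.Perf.Dev
import Pool.Agent.Work.MP_f714fc_ag.Geo.CohAb
import Pool.Agent.Work.MP_f714fc_ag.Coh.Affine

/-!
# MP_a6e60d_ag: coherent sheaves are closed under extensions in the category of all modules
-/

open CategoryTheory Limits TopologicalSpace AlgebraicGeometry Opposite Abelian

attribute [-instance] CategoryTheory.catToReflQuiver

universe u

namespace Orl.Perf

open Fdim Fdim.Coh

noncomputable section

variable {X : Scheme.{u}}

/-- sections over affine open subsets of a surjection with quasi-coherent kernel -/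
theorem ap_surjective_of_ker {S : ShortComplex X.Modules} (hS : S.ShortExact)
    (h₁ : S.X₁.IsQuasicoherent) {U : X.Opens} (hU : IsAffineOpen U) :
    Function.Surjective (ap S.g U) := by
  intro s
  have := HasExt.standard X.Modules
  let f : (Zf X).obj U ⟶ S.X₃ := (zEquiv U S.X₃).symm s
  obtain ⟨x, hx⟩ := Ext.covariant_sequence_exact₃ _ hS (Ext.mk₀ f) (zero_add 1)
    (serre_vanishing S.X₁ 0 U hU _)
  obtain ⟨g, rfl⟩ := (Ext.mk₀_bijective _ _).2 x
  rw [Ext.mk₀_comp_mk₀] at hx
  have h := (Ext.mk₀_bijective _ _).1 hx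
  refine ⟨zEquiv U _ g, ?_⟩
  have h2 := congrArg (zEquiv U S.X₃) h
  rw [zEquiv_comp] at h2
  exact h2.trans (Equiv.apply_symm_apply _ _)

instance : (IsCoh X).IsClosedUnderExtensions where
  prop_X₂_of_shortExact hS h₁ h₃ := isCoh_of_extension hS h₁ h₃ fun _ hU =>
    ap_surjective_of_ker hS h₁.1 hU

end

end Orl.Perf
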