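import Pool.Agent.Work.MP_f714fc_ag.Coh.FinDim
import Pool.Agent.Work.MP_f714fc_ag.Loc.GD
import Pool.Agent.Work.MP_f714fc_ag.Geo.CohAb

/-!
MP_a6e60d_ag, perfect complexes, 3: finite cohomological dimension of quasi-compact schemes with
affine intersections which are smooth over a field: `Ext^n(A, B) = 0` for large `n`, `A` coherent,
`B` quasi-coherent.
-/

set_option autoImplicit false

open CategoryTheory Limits TopologicalSpace AlgebraicGeometry Opposite Abelian

attribute [-instance] CategoryTheory.catToReflQuiver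

universe w u

namespace Orl.Perf

open Fdim Fdim.Coh Fdim.Loc

variable {X : Scheme.{u}}

section ext

variable [HasExt.{w} X.Modules] {U : X.Opens} {B : X.Modules}

/-- Vanishing above the projective dimension of the sections. -/
theorem ext_eq_zero_of_pd (hU : IsAffineOpen U) [IsNoetherianRing Γ(X, U)] (hB : Acyc.{w} U B)
    (d : ℕ) : ∀ (F : X.Modules), QU U F → Module.Finite Γ(X, U) Γ(F, U) →
      HasProjectiveDimensionLE (ModuleCat.of Γ(X, U) Γ(F, U)) d →
      ∀ (n : ℕ) (x : Ext.{w} F B (n + d + 1)), x = 0 := by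
  induction d with
  | zero =>
    intro F hF hfin hpd n x
    rw [projectiveDimensionLE_zero_iff] at hpd
    exact hF.ext_eq_zero_of_projective hU hB hfin hpd n x
  | succ d ih =>
    intro F hF hfin hpd n x
    obtain ⟨P₀, hP₀, p₀, hp₀⟩ := exists_cover F hfin
    have e₀ : Epi p₀ := hF.epi hU p₀ hp₀
    have hK₁ : QU U (Fdim.kerSub p₀).sh := (hP₀.qu hU).kerSub hF p₀
    have : Module.Finite Γ(X, U) Γ(P₀, U) := hP₀.finite
    have hf₁ := finite_ker_sections p₀ hP₀.finite
    have hpr₀ := hP₀.projective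
    have h1 : HasProjectiveDimensionLE (ModuleCat.of Γ(X, U) Γ((Fdim.kerSub p₀).sh, U)) d := by
      have h2 := (pd_ker (f := apL p₀ U) hp₀ d).1 hpd
      exact hasProjectiveDimensionLT_of_iso (kerSubEquiv p₀ U).symm.toModuleIso _
    have h3 : ∀ (y : Ext.{w} (Fdim.kerSub p₀).sh B (n + d + 1)), y = 0 :=
      fun y => ih _ hK₁ hf₁ h1 n y
    exact ext_eq_zero_of_shortExact (kerSub_shortExact p₀) h3 (hP₀.ext_eq_zero hB _) x

/-- vanishing for the part of `A` supported on a union of `m` good open sets -/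
theorem covBy_ext_eq_zero {G : X.Opens → Prop} (hG : ∀ U V, G U → G V → G (U ⊓ V)) {d : ℕ}
    (haff : ∀ U, G U → IsAffineOpen U) (hnoeth : ∀ U, G U → IsNoetherianRing Γ(X, U))
    (hgd : ∀ U, G U → GD Γ(X, U) d) {A B : X.Modules} (hA : ∀ U, G U → LocOn A U)
    (hfin : ∀ U, G U → Module.Finite Γ(X, U) Γ(A, U)) (hB : ∀ U, G U → Acyc.{w} U B)
    {m : ℕ} {W : X.Opens} (h : CovBy G m W) :
    ∀ (n : ℕ) (x : Ext.{w} (supU A W).sh B (n + m + d)), x = 0 := by
  classical
  induction m generalizing W with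
  | zero => cases h
  | succ m ih =>
    have hone : ∀ U, G U → ∀ (n : ℕ) (x : Ext.{w} (supU A U).sh B (n + d + 1)), x = 0 := by
      intro U hU n x
      have := hnoeth U hU
      have := hfin U hU
      exact ext_eq_zero_of_pd (haff U hU) (hB U hU) d _ (hA U hU).qu
        (Module.Finite.equiv (supUSecEquiv A U).symm) (hgd U hU _) n x
    cases h with
    | one hU =>
      intro n x
      have e : n + (0 + 1) + d = n + d + 1 := by ring
      revert x
      rw [e]
      exact hone W hU n
    | @succ _ W' U hW hU =>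
      intro n x
      have hx := ext_eq_zero_of_shortExact (B := B) (supU_mv A W' U) (n := n + m + d)
        (ih (hW.inf hG hU) n)
        (ext_biprod_eq_zero
          (fun y => by
            have e : n + m + d + 1 = (n + 1) + m + d := by ring
            revert y
            rw [e]
            exact ih hW (n + 1))
          (fun y => by
            have e : n + m + d + 1 = (n + m) + d + 1 := by ring
            revert y
            rw [e]
            exact hone U hU (n + m)))
      have e : n + (m + 1) + d = n + m + d + 1 := by ring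
      revert x
      rw [e]
      exact hx

end ext

/-- the open sets which are affine with a ring of functions of global dimension at most `d` -/
def GoodD (X : Scheme.{u}) (d : ℕ) (V : X.Opens) : Prop := IsAffineOpen V ∧ GD Γ(X, V) d

theorem GoodD.mono {d e : ℕ} (h : d ≤ e) {V : X.Opens} (hV : GoodD X d V) : GoodD X e V :=
  ⟨hV.1, hV.2.mono h⟩

theorem gd_of_le {V W : X.Opens} (h : V ≤ W) (hV : IsAffineOpen V) (hW : IsAffineOpen W) {d : ℕ}
    (hd : GD Γ(X, W) d) : GD Γ(X, V) d := by
  have e : V ≤ (𝟙 X : X ⟶ X) ⁻¹ᵁ W := h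
  have h1 := Etale.etale_appLE (𝟙 X) hW hV e
  algebraize [((𝟙 X : X ⟶ X).appLE W V e).hom]
  exact GD.of_etale hd

theorem GoodD.inf (hsep : ∀ V W : X.Opens, IsAffineOpen V → IsAffineOpen W →
    IsAffineOpen (V ⊓ W)) {d : ℕ} {V W : X.Opens} (hV : GoodD X d V) (hW : GoodD X d W) :
    GoodD X d (V ⊓ W) :=
  ⟨hsep V W hV.1 hW.1, gd_of_le inf_le_left (hsep V W hV.1 hW.1) hV.1 hV.2⟩

/-- a finite nonempty union -/
theorem CovBy.of_finset {G : X.Opens → Prop} {κ : Type*} [DecidableEq κ] (V : κ → X.Opens)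
    (s : Finset κ) (hV : ∀ i ∈ s, G (V i)) (hs : s.Nonempty) : CovBy G s.card (s.sup V) := by
  induction hs using Finset.Nonempty.cons_induction with
  | singleton a =>
    rw [Finset.card_singleton, Finset.sup_singleton]
    exact CovBy.one (hV a (Finset.mem_singleton_self a))
  | cons a s ha hs ih =>
    rw [Finset.card_cons, Finset.sup_cons, sup_comm]
    exact CovBy.succ (ih fun i hi => hV i (Finset.mem_cons.2 (Or.inr hi)))
      (hV a (Finset.mem_cons_self a s))

/-- Every point has an affine open neighbourhood whose ring of functions has finite global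
dimension. -/
def LocGD (X : Scheme.{u}) : Prop := ∀ x : X, ∃ (V : X.Opens) (d : ℕ), x ∈ V ∧ GoodD X d V

theorem LocGD.exists_cover [CompactSpace X] [Nonempty X] (h : LocGD X) :
    ∃ d m : ℕ, CovBy (GoodD X d) m ⊤ := by
  classical
  choose V d hx hV using h
  obtain ⟨s, hs⟩ := isCompact_univ.elim_finite_subcover (fun x => (V x : Set X))
    (fun x => (V x).isOpen) fun x _ => Set.mem_iUnion.2 ⟨x, hx x⟩
  have hne : s.Nonempty := by
    obtain ⟨x⟩ := ‹Nonempty X›
    obtain ⟨y, hy, _⟩ := Set.mem_iUnion₂.1 (hs (Set.mem_univ x))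
    exact ⟨y, hy⟩
  refine ⟨s.sup d, s.card, ?_⟩
  have h1 : s.sup V = ⊤ := by
    rw [eq_top_iff]
    intro x hx
    obtain ⟨y, hy, hxy⟩ := Set.mem_iUnion₂.1 (hs (Set.mem_univ x))
    exact (Finset.le_sup (f := V) hy) hxy
  rw [← h1]
  exact CovBy.of_finset V s (fun i hi => (hV i).mono (Finset.le_sup (f := d) hi)) hne

/-- Schemes which are smooth over a field. -/
theorem LocGD.of_smooth {k : Type u} [Field k] (f : X ⟶ Spec (CommRingCat.of k)) [Smooth f] :
    LocGD X := by
  intro x
  obtain ⟨U, hU, V, hV, hx, e, hs⟩ := Smooth.exists_isStandardSmooth f x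
  have hUt : U = ⊤ := by
    rw [eq_top_iff]
    intro y _
    have h1 : f x ∈ U := e hx
    rwa [Subsingleton.elim y (f x)]
  subst hUt
  let φ : k →+* Γ(X, V) := (f.appLE ⊤ V e).hom.comp
    (Scheme.ΓSpecIso (CommRingCat.of k)).inv.hom
  have hφ : φ.IsStandardSmooth := by
    refine RingHom.IsStandardSmooth.comp hs ?_
    exact (RingHom.IsStandardSmoothOfRelativeDimension.equiv
      (Scheme.ΓSpecIso (CommRingCat.of k)).symm.commRingCatIsoToRingEquiv).isStandardSmooth
  algebraize [φ]
  obtain ⟨ι, σ, _, _, ⟨P⟩⟩ := ‹Algebra.IsStandardSmooth k Γ(X, V)›.out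
  have : Algebra.IsStandardSmoothOfRelativeDimension P.dimension k Γ(X, V) :=
    ⟨_, _, _, inferInstance, P, rfl⟩
  exact ⟨V, P.dimension, hx, hV, GD.standardSmooth k Γ(X, V) P.dimension⟩

/-- **Finite cohomological dimension**: `Ext^n(A, B) = 0` for large `n`, uniformly. -/
theorem LocGD.exists_ext_eq_zero [CompactSpace X] [Nonempty X] [IsLocallyNoetherian X]
    (h : LocGD X) (hsep : ∀ V W : X.Opens, IsAffineOpen V → IsAffineOpen W →
      IsAffineOpen (V ⊓ W)) [HasExt.{w} X.Modules] :
    ∃ N : ℕ, ∀ (A B : X.Modules), IsCoh X A → B.IsQuasicoherent → ∀ (p : ℕ), N ≤ p →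
      ∀ x : Ext.{w} A B p, x = 0 := by
  obtain ⟨d, m, hm⟩ := h.exists_cover
  refine ⟨m + d, fun A B hA hB p hp x => ?_⟩
  obtain ⟨n, rfl⟩ : ∃ n, p = n + m + d := ⟨p - (m + d), by omega⟩
  have := hA.1
  have h1 := covBy_ext_eq_zero (G := GoodD X d) (fun U V hU hV => hU.inf hsep hV)
    (fun U hU => hU.1) (fun U hU => IsLocallyNoetherian.component_noetherian ⟨U, hU.1⟩)
    (fun U hU => hU.2) (A := A) (B := B) (fun U hU => LocOn.of_isQuasicoherent A hU.1)
    (fun U hU => hA.2 ⟨U, hU.1⟩) (fun U hU n α => serre_vanishing B n U hU.1 α) hm n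
  exact ext_eq_zero_of_retract (supUTopIso A).inv (supUTopIso A).hom (Iso.inv_hom_id _) h1 x

end Orl.Perf
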