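import Pool.Agent.Work.MP_a6e60d_ag.Perf.Ample
import Pool.Agent.Work.MP_a6e60d_ag.Perf.Dim

/-!
MP_a6e60d_ag, perfect complexes, 4: on a smooth scheme over a field with an ample line bundle
(given by a cocycle `g`), all complexes with bounded coherent cohomology belong to the thick
subcategory generated by the negative powers of the line bundle.
-/

set_option autoImplicit false

open CategoryTheory Category Limits Pretriangulated Triangulated DerivedCategory Abelian
open TopologicalSpace AlgebraicGeometry Opposite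

attribute [-instance] CategoryTheory.catToReflQuiver

namespace Orl.Perf

open Fdim Fdim.Coc

universe w u

variable {X : Scheme.{u}} {ι : Type u} {U : ι → X.Opens}

/-- The line bundle given by the cocycle `g` is ample: it has finitely many sections with affine
non-vanishing loci which cover. -/
def IsAmpleCoc (g : Coc U) : Prop :=
  ∃ (α : Type) (_ : Finite α) (σ : α → Sct g), (∀ a, IsAffineOpen (σ a).locus) ∧
    ⨆ a, (σ a).locus = ⊤

variable [IsCov U] [CompactSpace X] [QuasiSeparatedSpace X] [IsLocallyNoetherian X] {g : Coc U}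
  [HasDerivedCategory.{w} X.Modules]

theorem IsAmpleCoc.resolving (hg : IsAmpleCoc g) (P : ObjectProperty (DerivedCategory X.Modules))
    [P.IsTriangulated] [P.IsStableUnderRetracts]
    (hP : ∀ n : ℕ, P ((singleFunctor X.Modules 0).obj ((tw (g ^ (-(n : ℤ)))).obj (OO X)))) :
    Resolving P (IsCoh X) where
  exists_ses M hM := by
    obtain ⟨α, _, σ, haff, hσ⟩ := hg
    obtain ⟨n₀, hn₀⟩ := genBySections σ haff hσ hM
    obtain ⟨j, f, hf⟩ := hn₀ (n₀.toNat : ℤ) (by lia)
    obtain ⟨f', hf'⟩ := exists_twist_back (g := g ^ (n₀.toNat : ℤ)) (h := g ^ (-(n₀.toNat : ℤ)))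
      (by rw [← zpow_add, neg_add_cancel, zpow_zero]) f hf
    obtain ⟨Q, hQ, hPQ, q, hq⟩ := exists_family P (IsCoh X) (fun Z hZ => isCoh_of_isZero hZ)
      (fun M N hM hN => isCoh_biprod hM hN)
      (isCoh_tw (g ^ (-(n₀.toNat : ℤ))) IsCov.cov isCoh_unit) (hP n₀.toNat) f'
    have : Epi q := Preadditive.epi_of_cancel_zero q fun φ hφ => hf' _ φ fun l => by
      obtain ⟨i, hi⟩ := hq l
      rw [← hi, assoc, hφ, comp_zero]
    refine ⟨ShortComplex.mk (kernel.ι q) q (kernel.condition q), ?_, ⟨Iso.refl _⟩, ?_, hPQ⟩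
    · exact { exact := ShortComplex.exact_kernel q }
    · exact (IsCoh X).prop_kernel q hQ hM

/-- **Generation**: complexes with bounded coherent cohomology belong to the thick subcategory
generated by the negative powers of an ample line bundle. -/
theorem IsAmpleCoc.mem [Nonempty X] (hg : IsAmpleCoc g) (hgd : LocGD X)
    (hsep : ∀ V W : X.Opens, IsAffineOpen V → IsAffineOpen W → IsAffineOpen (V ⊓ W))
    (P : ObjectProperty (DerivedCategory X.Modules)) [P.IsTriangulated] [P.IsStableUnderRetracts]
    (hP : ∀ n : ℕ, P ((singleFunctor X.Modules 0).obj ((tw (g ^ (-(n : ℤ)))).obj (OO X))))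
    {K : DerivedCategory X.Modules} {a b : ℤ} (ha : K.IsGE a) (hb : K.IsLE b)
    (hK : ∀ i, IsCoh X ((homologyFunctor X.Modules i).obj K)) : P K := by
  let := HasExt.standard X.Modules
  obtain ⟨N, hN⟩ := hgd.exists_ext_eq_zero hsep
  refine (hg.resolving P hP).mem (N := N) (fun F G hF hG f => ?_) ha hb hK
  have h5 : f = (Ext.homEquiv.symm f).hom := (Ext.homEquiv.apply_symm_apply f).symm
  have h6 := hN F G hF hG.1 N le_rfl (Ext.homEquiv.symm f)
  rw [h5, h6, Ext.zero_hom]

end Orl.Perf
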