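import Pool.Agent.Work.MP_a6e60d_ag.Perf.P4
import Pool.Agent.Work.MP_a6e60d_ag.Perf.Smooth
import Pool.Agent.Work.MP_a6e60d_ag.DG.Bridge

/-!
# MP_a6e60d_ag, perfect complexes: the final form

`Y₀` is an object with bounded coherent cohomology of the derived category of `X`, such that the
thick subcategory generated by `Y₀` contains the negative powers of an ample line bundle.  Then this
thick subcategory consists of the objects with bounded coherent cohomology.
-/

set_option autoImplicit false

open CategoryTheory Limits DerivedCategory AlgebraicGeometry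

attribute [-instance] CategoryTheory.catToReflQuiver

namespace Orl.Perf

open Fdim Fdim.Coc

universe w u w'

section

variable {X : Scheme.{u}} {ι : Type u} {U : ι → X.Opens} [IsCov U] [CompactSpace X]
  [QuasiSeparatedSpace X] [IsLocallyNoetherian X] [Nonempty X] {g : Coc U}
  [HasDerivedCategory.{w} X.Modules]

/-- **Generation**: the objects with bounded coherent cohomology are the objects of the thick
subcategory generated by `Y₀`. -/
theorem bddIn_iff (hg : IsAmpleCoc g) (hgd : LocGD X)
    (hsep : ∀ V W : X.Opens, IsAffineOpen V → IsAffineOpen W → IsAffineOpen (V ⊓ W))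
    {Y₀ : DerivedCategory X.Modules} (hY₀ : BddIn (IsCoh X) Y₀)
    (hgen : ∀ P : ObjectProperty (DerivedCategory X.Modules), P.IsTriangulated →
      P.IsStableUnderRetracts → P Y₀ →
      ∀ n : ℕ, P ((singleFunctor X.Modules 0).obj ((tw (g ^ (-(n : ℤ)))).obj (OO X))))
    {Y : DerivedCategory X.Modules} : BddIn (IsCoh X) Y ↔
      ∀ P : ObjectProperty (DerivedCategory X.Modules), P.IsTriangulated →
        P.IsStableUnderRetracts → P Y₀ → P Y := by
  constructor
  · rintro ⟨⟨a, b, ha, hb⟩, h⟩ P h1 h2 h3
    exact hg.mem hgd hsep P (hgen P h1 h2 h3) ha hb h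
  · intro h
    exact h (BddIn (IsCoh X)) inferInstance inferInstance hY₀

end

section

variable {X : Scheme.{0}} {ι : Type} {U : ι → X.Opens} [IsCov U] [CompactSpace X]
  [QuasiSeparatedSpace X] [IsLocallyNoetherian X] [Nonempty X] {g : Coc U}
  [HasDerivedCategory.{w} X.Modules] (k : Type w') [CommRing k] [Linear k X.Modules]

/-- **Perfect complexes**: the K-injective complexes with bounded coherent cohomology are the
objects of the thick closure of a K-injective complex `J` in the DG category of complexes, if the
thick subcategory of the derived category generated by `J` contains the negative powers of an ample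
line bundle. -/
theorem thick_iff_bddIn (hg : IsAmpleCoc g) (hgd : LocGD X)
    (hsep : ∀ V W : X.Opens, IsAffineOpen V → IsAffineOpen W → IsAffineOpen (V ⊓ W))
    {J : CochainComplex X.Modules ℤ} (hJ : J.IsKInjective) (hJ₀ : BddIn (IsCoh X) (Q.obj J))
    (hgen : ∀ P : ObjectProperty (DerivedCategory X.Modules), P.IsTriangulated →
      P.IsStableUnderRetracts → P (Q.obj J) →
      ∀ n : ℕ, P ((singleFunctor X.Modules 0).obj ((tw (g ^ (-(n : ℤ)))).obj (OO X))))
    {I : CochainComplex X.Modules ℤ} : DGCat.Thick (A := cxDG k X.Modules) J I ↔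
      I.IsKInjective ∧ BddIn (IsCoh X) (Q.obj I) := by
  constructor
  · intro h
    have hI : I.IsKInjective := isKInjective_of_thick hJ h
    exact ⟨hI, (bddIn_iff hg hgd hsep hJ₀ hgen).2 ((thick_iff k hJ hI).1 h)⟩
  · rintro ⟨hI, h⟩
    exact (thick_iff k hJ hI).2 ((bddIn_iff hg hgd hsep hJ₀ hgen).1 h)

end

section

variable {X : Scheme.{u}} [HasDerivedCategory.{w} X.Modules]
  [∀ U : X.Opens, HasDerivedCategory.{w} U.toScheme.Modules]

/-- Perfect complexes: every point has an open neighbourhood `U` such that the restriction to `U`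
is isomorphic, in the derived category of `U`, to a bounded complex of finite free modules. -/
def LocPerf (K : CochainComplex X.Modules ℤ) : Prop :=
  ∀ x : X, ∃ U : X.Opens, x ∈ U ∧ ∃ (L : CochainComplex U.toScheme.Modules ℤ) (a b : ℤ),
    L.IsStrictlyGE a ∧ L.IsStrictlyLE b ∧ (∀ i, FinFree U.toScheme (L.X i)) ∧
      Nonempty (Q.obj L ≅ Q.obj (resCx U.ι K))

/-- **Perfect complexes**: on a noetherian scheme which is locally of finite global dimension the
perfect complexes are the complexes with bounded coherent cohomology. -/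
theorem locPerf_iff [CompactSpace X] [IsLocallyNoetherian X] (hX : LocGD X)
    {K : CochainComplex X.Modules ℤ} : LocPerf K ↔ BddIn (IsCoh X) (Q.obj K) :=
  ⟨fun h => bddIn_of_locFree K h, fun h x => exists_locFree hX h x⟩

end

section

variable {X : Scheme.{u}} {ι : Type u} {U : ι → X.Opens} [IsCov U] [CompactSpace X]
  [QuasiSeparatedSpace X] [IsLocallyNoetherian X] [Nonempty X] {g : Coc U}
  [HasDerivedCategory.{w} X.Modules] [∀ U : X.Opens, HasDerivedCategory.{w} U.toScheme.Modules]

/-- **Generation**: the perfect complexes are the objects of the thick subcategory generated by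
`Y₀`. -/
theorem locPerf_iff_thick (hg : IsAmpleCoc g) (hgd : LocGD X)
    (hsep : ∀ V W : X.Opens, IsAffineOpen V → IsAffineOpen W → IsAffineOpen (V ⊓ W))
    {Y₀ : DerivedCategory X.Modules} (hY₀ : BddIn (IsCoh X) Y₀)
    (hgen : ∀ P : ObjectProperty (DerivedCategory X.Modules), P.IsTriangulated →
      P.IsStableUnderRetracts → P Y₀ →
      ∀ n : ℕ, P ((singleFunctor X.Modules 0).obj ((tw (g ^ (-(n : ℤ)))).obj (OO X))))
    {K : CochainComplex X.Modules ℤ} : LocPerf K ↔
      ∀ P : ObjectProperty (DerivedCategory X.Modules), P.IsTriangulated →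
        P.IsStableUnderRetracts → P Y₀ → P (Q.obj K) := by
  rw [locPerf_iff hgd, bddIn_iff hg hgd hsep hY₀ hgen]

end

section

variable {X : Scheme.{0}} {ι : Type} {U : ι → X.Opens} [IsCov U] [CompactSpace X]
  [QuasiSeparatedSpace X] [IsLocallyNoetherian X] [Nonempty X] {g : Coc U}
  [HasDerivedCategory.{w} X.Modules] [∀ U : X.Opens, HasDerivedCategory.{w} U.toScheme.Modules]
  (k : Type w') [CommRing k] [Linear k X.Modules]

/-- **Perfect complexes**: the K-injective perfect complexes are the objects of the thick closure
of a K-injective complex `J` in the DG category of complexes, if `J` is perfect and if the thick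
subcategory of the derived category generated by `J` contains the negative powers of an ample
line bundle. -/
theorem thick_iff_locPerf (hg : IsAmpleCoc g) (hgd : LocGD X)
    (hsep : ∀ V W : X.Opens, IsAffineOpen V → IsAffineOpen W → IsAffineOpen (V ⊓ W))
    {J : CochainComplex X.Modules ℤ} (hJ : J.IsKInjective) (hJ₀ : BddIn (IsCoh X) (Q.obj J))
    (hgen : ∀ P : ObjectProperty (DerivedCategory X.Modules), P.IsTriangulated →
      P.IsStableUnderRetracts → P (Q.obj J) →
      ∀ n : ℕ, P ((singleFunctor X.Modules 0).obj ((tw (g ^ (-(n : ℤ)))).obj (OO X))))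
    {I : CochainComplex X.Modules ℤ} : DGCat.Thick (A := cxDG k X.Modules) J I ↔
      I.IsKInjective ∧ LocPerf I := by
  rw [thick_iff_bddIn k hg hgd hsep hJ hJ₀ hgen, locPerf_iff hgd]

end

end Orl.Perf
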