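import Pool.Agent.Work.MP_a6e60d_ag.Perf.PerfDefs
import Pool.Agent.Work.MP_a6e60d_ag.Perf.Final
import Pool.Agent.Work.MP_f714fc_ag.Sch.YGeom

/-!
# MP_a6e60d_ag, perfect complexes: the final form for smooth projective varieties

`X` is a smooth projective variety with an ample line bundle (the cocycle `g`), `Y₀` is an object
with bounded coherent cohomology of the derived category of `X` such that the thick subcategory
generated by `Y₀` contains the negative powers of the line bundle.  Then the perfect complexes are
the objects of this thick subcategory.
-/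

set_option autoImplicit false

open CategoryTheory Limits DerivedCategory AlgebraicGeometry Pretriangulated

attribute [-instance] CategoryTheory.catToReflQuiver

namespace Orl.Perf

open Fdim Fdim.Coc

variable {k : Type} [Field k] {X : Scheme.{0}} [X.Over (Spec (.of k))]

section

variable (hX : FdDG.IsSmoothProj k X)

include hX

theorem isProper : IsProper (X ↘ Spec (.of k)) := hX.projective.isProper

theorem compactSpace : CompactSpace X := by
  have := isProper hX
  exact QuasiCompact.compactSpace_of_compactSpace (X ↘ Spec (.of k))

theorem isSeparated : X.IsSeparated := by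
  have := isProper hX
  rw [Scheme.isSeparated_iff, ← terminal.comp_from (X ↘ Spec (.of k)), IsSeparated.comp_iff]
  infer_instance

theorem isLocallyNoetherian : IsLocallyNoetherian X := by
  have := isProper hX
  exact LocallyOfFiniteType.isLocallyNoetherian (X ↘ Spec (.of k))

theorem isIntegral : IsIntegral X := by
  have := hX.integral
  exact GeometricallyIntegral.isIntegral_of_subsingleton (X ↘ Spec (.of k))

theorem locGD : LocGD X := by
  have := hX.smooth
  exact LocGD.of_smooth (X ↘ Spec (.of k))

end

variable {ι : Type} {U : ι → X.Opens} [IsCov U] {g : Coc U}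

/-- the negative powers of the line bundle belong to the thick subcategory generated by `Y₀` -/
def GenPow (g : Coc U) (Y₀ : DerivedCategory X.Modules) : Prop :=
  ∀ P : ObjectProperty (DerivedCategory X.Modules), P.IsTriangulated →
    P.IsStableUnderRetracts → P Y₀ →
    ∀ n : ℕ, P ((singleFunctor X.Modules 0).obj ((tw (g ^ (-(n : ℤ)))).obj (OO X)))

omit [X.Over (Spec (.of k))] [IsCov U] in
lemma GenPow.mono {Y₀ Y₁ : DerivedCategory X.Modules} (h : GenPow g Y₀)
    (h01 : ∀ P : ObjectProperty (DerivedCategory X.Modules), P.IsTriangulated →
      P.IsStableUnderRetracts → P Y₁ → P Y₀) : GenPow g Y₁ := fun P h1 h2 h3 =>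
  h P h1 h2 (h01 P h1 h2 h3)

/-- **Generation**: the perfect objects are the objects of the thick subcategory generated by
`Y₀`. -/
theorem isPerfectObj_iff_thick (hX : FdDG.IsSmoothProj k X) (hg : IsAmpleCoc g)
    {Y₀ : DerivedCategory X.Modules} (hY₀ : BddIn (IsCoh X) Y₀) (hgen : GenPow g Y₀)
    {E : DerivedCategory X.Modules} : FdDG.IsPerfectObj E ↔
      ∀ P : ObjectProperty (DerivedCategory X.Modules), P.IsTriangulated →
        P.IsStableUnderRetracts → P Y₀ → P E := by
  have := compactSpace hX
  have := isSeparated hX
  have := isLocallyNoetherian hX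
  have := isIntegral hX
  rw [isPerfectObj_iff (locGD hX)]
  exact bddIn_iff hg (locGD hX) (fun V W hV hW => hV.inf hW) hY₀ hgen

/-- **Generation**: the perfect complexes are the objects of the thick subcategory generated by
`Y₀`. -/
theorem isPerfect_iff_thick (hX : FdDG.IsSmoothProj k X) (hg : IsAmpleCoc g)
    {Y₀ : DerivedCategory X.Modules} (hY₀ : BddIn (IsCoh X) Y₀) (hgen : GenPow g Y₀)
    {K : CochainComplex X.Modules ℤ} : FdDG.IsPerfect K ↔
      ∀ P : ObjectProperty (DerivedCategory X.Modules), P.IsTriangulated →
        P.IsStableUnderRetracts → P Y₀ → P (Q.obj K) := by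
  have := compactSpace hX
  have := isSeparated hX
  have := isLocallyNoetherian hX
  have := isIntegral hX
  rw [isPerfect_iff (locGD hX)]
  exact bddIn_iff hg (locGD hX) (fun V W hV hW => hV.inf hW) hY₀ hgen

/-- **The DG category of perfect complexes**: the K-injective perfect complexes are the objects of
the thick closure of a K-injective complex `J` in the DG category of complexes, if `J` has bounded
coherent cohomology and the thick subcategory of the derived category generated by `J` contains the
negative powers of an ample line bundle. -/
theorem thick_iff_isPerfect (hX : FdDG.IsSmoothProj k X) (hg : IsAmpleCoc g)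
    {J : CochainComplex X.Modules ℤ} (hJ : J.IsKInjective) (hJ₀ : BddIn (IsCoh X) (Q.obj J))
    (hgen : GenPow g (Q.obj J)) {I : CochainComplex X.Modules ℤ} :
    DGCat.Thick (A := cxDG k X.Modules) J I ↔ I.IsKInjective ∧ FdDG.IsPerfect I := by
  have := compactSpace hX
  have := isSeparated hX
  have := isLocallyNoetherian hX
  have := isIntegral hX
  rw [isPerfect_iff (locGD hX)]
  exact thick_iff_bddIn k hg (locGD hX) (fun V W hV hW => hV.inf hW) hJ hJ₀ hgen

end Orl.Perf
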