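import Pool.Agent.Work.MP_a6e60d_ag.Perf.Thick
import Pool.Agent.Work.MP_f714fc_ag.Tw.Ample
import Pool.Agent.Work.MP_f714fc_ag.Coh.FinDim

/-!
MP_a6e60d_ag, perfect complexes, 2: on a scheme with an ample line bundle (given by a cocycle) and
a finite cover by affine open sets whose rings of functions are noetherian of global dimension at
most two, all complexes with bounded coherent cohomology belong to the thick subcategory generated
by the negative powers of the line bundle.
-/

set_option autoImplicit false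

open CategoryTheory Category Limits Pretriangulated Triangulated DerivedCategory Abelian
open TopologicalSpace AlgebraicGeometry Opposite

attribute [-instance] CategoryTheory.catToReflQuiver

namespace Orl.Perf

universe w v u

section abs

variable {A : Type u} [Category.{v} A] [Abelian A] [HasDerivedCategory.{w} A]

theorem single_of_isZero (P : ObjectProperty (DerivedCategory A)) [P.IsTriangulated]
    [P.IsStableUnderRetracts] {Z : A} (hZ : IsZero Z) : P ((singleFunctor A 0).obj Z) :=
  P.prop_of_isZero ((singleFunctor A 0).map_isZero hZ)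

theorem single_biprod (P : ObjectProperty (DerivedCategory A)) [P.IsTriangulated]
    [P.IsStableUnderRetracts] {M N : A} (hM : P ((singleFunctor A 0).obj M))
    (hN : P ((singleFunctor A 0).obj N)) : P ((singleFunctor A 0).obj (M ⊞ N)) :=
  P.ext_of_isTriangulatedClosed₂ _
    (ShortComplex.Splitting.ofHasBinaryBiproduct M N).shortExact.singleTriangle_distinguished hM hN

/-- a finite family of morphisms from an object of `P` to `M` factors through a morphism from an
object of `P` -/
theorem exists_family (P : ObjectProperty (DerivedCategory A)) [P.IsTriangulated]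
    [P.IsStableUnderRetracts] (C : ObjectProperty A) (h0 : ∀ Z, IsZero Z → C Z)
    (hC : ∀ M N, C M → C N → C (M ⊞ N)) {L M : A} (hL : C L)
    (hPL : P ((singleFunctor A 0).obj L)) {j : ℕ} (f : Fin j → (L ⟶ M)) :
    ∃ (Q : A) (_ : C Q) (_ : P ((singleFunctor A 0).obj Q)) (q : Q ⟶ M),
      ∀ l, ∃ i : L ⟶ Q, i ≫ q = f l := by
  induction j with
  | zero =>
    obtain ⟨Z, hZ⟩ := HasZeroObject.zero (C := A)
    exact ⟨Z, h0 Z hZ, single_of_isZero P hZ, 0, fun l => l.elim0⟩
  | succ j ih =>
    obtain ⟨Q, hQ, hPQ, q, hq⟩ := ih fun l => f l.succ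
    refine ⟨L ⊞ Q, hC _ _ hL hQ, single_biprod P hPL hPQ, biprod.desc (f 0) q, fun l => ?_⟩
    refine Fin.cases ⟨biprod.inl, biprod.inl_desc _ _⟩ (fun l => ?_) l
    obtain ⟨i, hi⟩ := hq l
    exact ⟨i ≫ biprod.inr, by rw [assoc, biprod.inr_desc, hi]⟩

end abs

open Fdim Fdim.Coc

variable {X : Scheme.{u}} {ι : Type u} {U : ι → X.Opens}

/-- twisting back a generating family -/
theorem exists_twist_back [IsCov U] {g h : Coc U} (e : h * g = 1) {M : X.Modules} {j : ℕ}
    (f : Fin j → (OO X ⟶ (tw g).obj M))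
    (hf : ∀ (B : X.Modules) (φ : (tw g).obj M ⟶ B), (∀ l, f l ≫ φ = 0) → φ = 0) :
    ∃ f' : Fin j → ((tw h).obj (OO X) ⟶ M),
      ∀ (B : X.Modules) (φ : M ⟶ B), (∀ l, f' l ≫ φ = 0) → φ = 0 := by
  let i : (tw h).obj ((tw g).obj M) ≅ M := (mulIso e).app M ≪≫ ((oneIso (U := U) rfl).app M).symm
  refine ⟨fun l => (tw h).map (f l) ≫ i.hom, fun B φ hφ => ?_⟩
  obtain ⟨B', ⟨b⟩⟩ : ∃ B', Nonempty ((tw h).obj B' ≅ B) := ⟨_, ⟨(tw h).objObjPreimageIso B⟩⟩
  obtain ⟨ψ, hψ⟩ := (tw h).map_surjective (i.hom ≫ φ ≫ b.inv)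
  have h1 : ψ = 0 := by
    apply hf
    intro l
    apply (tw h).map_injective
    rw [Functor.map_comp, hψ, Functor.map_zero, reassoc_of% (hφ l), zero_comp]
  rw [h1, Functor.map_zero] at hψ
  rw [← cancel_epi i.hom, ← cancel_mono b.inv, assoc, ← hψ, comp_zero, zero_comp]

/-- the ampleness of the line bundle given by the cocycle `g`, and the cover by good open sets -/
structure AmpleCover (g : Coc U) : Prop where
  /-- sections of the line bundle with affine non-vanishing loci which cover -/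
  ample : ∃ (α : Type) (_ : Finite α) (σ : α → Sct g), (∀ a, IsAffineOpen (σ a).locus) ∧
    ⨆ a, (σ a).locus = ⊤
  /-- the cover by good open sets -/
  good : ∃ (G : X.Opens → Prop) (m : ℕ), (∀ V W, G V → G W → G (V ⊓ W)) ∧
    (∀ V, G V → GoodOpen V) ∧ CovBy G m ⊤

variable [IsCov U] [CompactSpace X] [QuasiSeparatedSpace X] [IsLocallyNoetherian X] {g : Coc U}
  [HasDerivedCategory.{w} X.Modules]

theorem AmpleCover.resolving (hg : AmpleCover g) (P : ObjectProperty (DerivedCategory X.Modules))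
    [P.IsTriangulated] [P.IsStableUnderRetracts]
    (hP : ∀ n : ℕ, P ((singleFunctor X.Modules 0).obj ((tw (g ^ (-(n : ℤ)))).obj (OO X)))) :
    Resolving P (IsCoh X) where
  exists_ses M hM := by
    obtain ⟨α, _, σ, haff, hσ⟩ := hg.ample
    obtain ⟨n₀, hn₀⟩ := genBySections σ haff hσ hM
    obtain ⟨j, f, hf⟩ := hn₀ (n₀.toNat : ℤ) (by lia)
    obtain ⟨f', hf'⟩ := exists_twist_back (g := g ^ (n₀.toNat : ℤ)) (h := g ^ (-(n₀.toNat : ℤ)))
      (by rw [← zpow_add, neg_add_cancel, zpow_zero]) f hf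
    obtain ⟨Q, hQ, hPQ, q, hq⟩ := exists_family P (IsCoh X) (fun Z hZ => isCoh_of_isZero hZ)
      (fun M N hM hN => isCoh_biprod hM hN) (isCoh_tw (g ^ (-(n₀.toNat : ℤ))) IsCov.cov isCoh_unit)
      (hP n₀.toNat) f'
    have : Epi q := Preadditive.epi_of_cancel_zero q fun φ hφ => hf' _ φ fun l => by
      obtain ⟨i, hi⟩ := hq l
      rw [← hi, assoc, hφ, comp_zero]
    refine ⟨ShortComplex.mk (kernel.ι q) q (kernel.condition q), ?_, ⟨Iso.refl _⟩, ?_, hPQ⟩
    · exact { exact := ShortComplex.exact_kernel q }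
    · exact (IsCoh X).prop_kernel q hQ hM

/-- Finite cohomological dimension. -/
theorem AmpleCover.exists_hom_eq_zero (hg : AmpleCover g) : ∃ N : ℕ, ∀ M M', IsCoh X M →
    IsCoh X M' → ∀ f : (singleFunctor X.Modules 0).obj M ⟶
      ((singleFunctor X.Modules 0).obj M')⟦(N : ℤ)⟧, f = 0 := by
  obtain ⟨G, m, h1, h2, h3⟩ := hg.good
  refine ⟨m + 2, fun M M' hM hM' f => ?_⟩
  have := hM.1
  have := hM'.1
  let := HasExt.standard X.Modules
  have h4 := ext_eq_zero_of_covBy h1 h2 h3 M M' (fun V hV => hM.2 ⟨V, (h2 V hV).aff⟩) le_rfl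
    (Ext.homEquiv.symm f)
  have h5 : f = (Ext.homEquiv.symm f).hom := (Ext.homEquiv.apply_symm_apply f).symm
  rw [h5, h4, Ext.zero_hom]

/-- **Generation**: complexes with bounded coherent cohomology belong to the thick subcategory
generated by the negative powers of an ample line bundle. -/
theorem AmpleCover.mem (hg : AmpleCover g) (P : ObjectProperty (DerivedCategory X.Modules))
    [P.IsTriangulated] [P.IsStableUnderRetracts]
    (hP : ∀ n : ℕ, P ((singleFunctor X.Modules 0).obj ((tw (g ^ (-(n : ℤ)))).obj (OO X))))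
    {K : DerivedCategory X.Modules} {a b : ℤ} (ha : K.IsGE a) (hb : K.IsLE b)
    (hK : ∀ i, IsCoh X ((homologyFunctor X.Modules i).obj K)) : P K := by
  obtain ⟨N, hN⟩ := hg.exists_hom_eq_zero
  exact (hg.resolving P hP).mem hN ha hb hK

end Orl.Perf
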