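import Mathlib

/-!
# MP_a6e60d_ag, perfect complexes: bounded objects of a derived category with cohomology in a class

* `BddIn Q X`: the object `X` of the derived category is bounded, all its cohomology objects
  have property `Q`.
* `mem_of_bddIn`: a triangulated class of objects which contains the objects of `Q` (in
  degree `0`) contains all `X` with `BddIn Q X`.
* `BddIn Q` is a triangulated class closed under retracts if `Q` is closed under kernels,
  cokernels and extensions.
-/

open CategoryTheory Limits Pretriangulated DerivedCategory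

namespace Orl.Perf

universe w v u

variable {C : Type u} [Category.{v} C] [Abelian C] [HasDerivedCategory.{w} C]

/-- the object `X` is bounded and all its cohomology objects have property `Q` -/
def BddIn (Q : ObjectProperty C) (X : DerivedCategory C) : Prop :=
  (∃ a b : ℤ, X.IsGE a ∧ X.IsLE b) ∧ ∀ i : ℤ, Q ((homologyFunctor C i).obj X)

lemma homology_iso_left {T : Triangle (DerivedCategory C)} (hT : T ∈ distTriang _) (i j : ℤ)
    (hij : i + 1 = j) (h₃ : IsZero ((homologyFunctor C i).obj T.obj₃))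
    (h₃' : IsZero ((homologyFunctor C j).obj T.obj₃)) :
    IsIso ((homologyFunctor C j).map T.mor₁) := by
  have h1 : Mono ((homologyFunctor C j).map T.mor₁) := by
    rw [HomologySequence.mono_homologyMap_mor₁_iff T hT i j hij]
    exact h₃.eq_of_src _ _
  have h2 : Epi ((homologyFunctor C j).map T.mor₁) := by
    rw [HomologySequence.epi_homologyMap_mor₁_iff T hT j]
    exact h₃'.eq_of_tgt _ _
  exact isIso_of_mono_of_epi _

lemma homology_iso_right {T : Triangle (DerivedCategory C)} (hT : T ∈ distTriang _) (i j : ℤ)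
    (hij : i + 1 = j) (h₁ : IsZero ((homologyFunctor C i).obj T.obj₁))
    (h₁' : IsZero ((homologyFunctor C j).obj T.obj₁)) :
    IsIso ((homologyFunctor C i).map T.mor₂) := by
  have h1 : Mono ((homologyFunctor C i).map T.mor₂) := by
    rw [HomologySequence.mono_homologyMap_mor₂_iff T hT i]
    exact h₁.eq_of_src _ _
  have h2 : Epi ((homologyFunctor C i).map T.mor₂) := by
    rw [HomologySequence.epi_homologyMap_mor₂_iff T hT i j hij]
    exact h₁'.eq_of_tgt _ _
  exact isIso_of_mono_of_epi _

lemma single_mem {P : ObjectProperty (DerivedCategory C)} [P.IsStableUnderShift ℤ]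
    [P.IsClosedUnderIsomorphisms] {Y : C} (h : P ((singleFunctor C 0).obj Y)) (a : ℤ) :
    P ((singleFunctor C a).obj Y) := by
  rw [← P.prop_shift_iff_of_isStableUnderShift _ a]
  exact P.prop_of_iso (((singleFunctors C).shiftIso a 0 a (by simp)).symm.app Y) h

/-- devissage: the class `P` contains every bounded object whose cohomology objects are in `P`
(in degree `0`). -/
theorem mem_of_homology (P : ObjectProperty (DerivedCategory C)) [P.IsTriangulated]
    [P.IsClosedUnderIsomorphisms] (n : ℕ) (X : DerivedCategory C) (a : ℤ) (hge : X.IsGE a)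
    (hle : X.IsLE (a + n))
    (h : ∀ i : ℤ, P ((singleFunctor C 0).obj ((homologyFunctor C i).obj X))) : P X := by
  induction n generalizing X a with
  | zero =>
    have : X.IsLE a := by simpa using hle
    obtain ⟨Y, ⟨e⟩⟩ := X.exists_iso_singleFunctor_obj_of_isGE_of_isLE a
    refine P.prop_of_iso e.symm (single_mem ?_ a)
    refine P.prop_of_iso ((singleFunctor C 0).mapIso ?_) (h a)
    exact (homologyFunctor C a).mapIso e ≪≫ (singleFunctorCompHomologyFunctorIso C a).app Y
  | succ n ih =>
    obtain ⟨X₁, X₃, h₁, h₃, f, g, δ, hT⟩ := TStructure.t.exists_triangle X a (a + 1) rfl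
    have h₁' : X₁.IsLE a := ⟨h₁⟩
    have h₃' : X₃.IsGE (a + 1) := ⟨h₃⟩
    have k₁ : ∀ i, i ≤ a → IsIso ((homologyFunctor C i).map f) := fun i hi =>
      homology_iso_left hT (i - 1) i (by lia) (X₃.isZero_of_isGE (a + 1) _ (by lia))
        (X₃.isZero_of_isGE (a + 1) _ (by lia))
    have k₃ : ∀ i, a < i → IsIso ((homologyFunctor C i).map g) := fun i hi =>
      homology_iso_right hT i (i + 1) rfl (X₁.isZero_of_isLE a _ (by lia))
        (X₁.isZero_of_isLE a _ (by lia))
    have l₁ : X₁.IsGE a := by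
      rw [isGE_iff]
      intro i hi
      have := k₁ i hi.le
      exact (X.isZero_of_isGE a i hi).of_iso (asIso ((homologyFunctor C i).map f))
    have l₃ : X₃.IsLE (a + 1 + n) := by
      rw [isLE_iff]
      intro i hi
      have := k₃ i (by lia)
      exact (X.isZero_of_isLE (a + (n + 1 : ℕ)) i (by push_cast; lia)).of_iso
        (asIso ((homologyFunctor C i).map g)).symm
    have hz' : ∀ {Y : C}, IsZero Y → P ((singleFunctor C 0).obj Y) := fun hY =>
      P.prop_of_isZero ((singleFunctor C 0).map_isZero hY)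
    refine P.ext_of_isTriangulatedClosed₂ _ hT ?_ ?_
    · obtain ⟨Y, ⟨e⟩⟩ := X₁.exists_iso_singleFunctor_obj_of_isGE_of_isLE a
      refine P.prop_of_iso e.symm (single_mem ?_ a)
      have := k₁ a le_rfl
      refine P.prop_of_iso ((singleFunctor C 0).mapIso ?_) (h a)
      exact (asIso ((homologyFunctor C a).map f)).symm ≪≫ (homologyFunctor C a).mapIso e ≪≫
        (singleFunctorCompHomologyFunctorIso C a).app Y
    · refine ih X₃ (a + 1) h₃' l₃ fun i => ?_
      by_cases hi : a < i
      · have := k₃ i hi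
        exact P.prop_of_iso ((singleFunctor C 0).mapIso
          (asIso ((homologyFunctor C i).map g))) (h i)
      · exact hz' (X₃.isZero_of_isGE (a + 1) i (by lia))

/-- **Devissage**: a triangulated class of objects which contains the objects of `Q`, in degree
`0`, contains the bounded objects with cohomology in `Q`. -/
theorem mem_of_bddIn (P : ObjectProperty (DerivedCategory C)) [P.IsTriangulated]
    [P.IsClosedUnderIsomorphisms] (Q : ObjectProperty C)
    (hQ : ∀ M, Q M → P ((singleFunctor C 0).obj M)) {X : DerivedCategory C} (hX : BddIn Q X) :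
    P X := by
  obtain ⟨⟨a, b, ha, hb⟩, h⟩ := hX
  have : X.IsLE (a + (b - a).toNat) := TStructure.t.isLE_of_le X b _ (by lia)
  exact mem_of_homology P (b - a).toNat X a ha this fun i => hQ _ (h i)

section closure

variable {Q : ObjectProperty C}

lemma BddIn.of_iso [Q.IsClosedUnderIsomorphisms] {X Y : DerivedCategory C} (e : X ≅ Y)
    (h : BddIn Q X) : BddIn Q Y := by
  obtain ⟨⟨a, b, ha, hb⟩, h⟩ := h
  exact ⟨⟨a, b, TStructure.t.isGE_of_iso e a, TStructure.t.isLE_of_iso e b⟩, fun i =>
    Q.prop_of_iso ((homologyFunctor C i).mapIso e) (h i)⟩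

instance [Q.IsClosedUnderIsomorphisms] :
    ObjectProperty.IsClosedUnderIsomorphisms (BddIn (C := C) Q) where
  of_iso e h := h.of_iso e

omit [HasDerivedCategory.{w} C] in
/-- the middle term of an exact sequence of five objects -/
lemma mem_of_exact [Q.IsClosedUnderIsomorphisms] [Q.IsClosedUnderKernels]
    [Q.IsClosedUnderCokernels] [Q.IsClosedUnderExtensions] {A B X D E : C} {f : A ⟶ B}
    {i : B ⟶ X} {p : X ⟶ D} {g : D ⟶ E} (w₁ : f ≫ i = 0) (w₂ : i ≫ p = 0) (w₃ : p ≫ g = 0)
    (h₁ : (ShortComplex.mk f i w₁).Exact) (h₂ : (ShortComplex.mk i p w₂).Exact)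
    (h₃ : (ShortComplex.mk p g w₃).Exact) (hA : Q A) (hB : Q B) (hD : Q D) (hE : Q E) :
    Q X := by
  let S : ShortComplex C := ShortComplex.mk (cokernel.desc f i w₁) (kernel.lift g p w₃)
    (by
      rw [← cancel_epi (cokernel.π f), ← cancel_mono (kernel.ι g)]
      simpa using w₂)
  have hS : S.ShortExact := by
    have hm : Mono (cokernel.desc f i w₁) :=
      (ShortComplex.exact_iff_mono_cokernel_desc _).1 h₁
    have he : Epi (kernel.lift g p w₃) :=
      (ShortComplex.exact_iff_epi_kernel_lift _).1 h₃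
    have w₂' : cokernel.desc f i w₁ ≫ p = 0 := by
      rw [← cancel_epi (cokernel.π f)]
      simpa using w₂
    let S' : ShortComplex C := ShortComplex.mk (cokernel.desc f i w₁) p w₂'
    let φ : ShortComplex.mk i p w₂ ⟶ S' :=
      { τ₁ := cokernel.π f, τ₂ := 𝟙 X, τ₃ := 𝟙 D }
    let ψ : S ⟶ S' :=
      { τ₁ := 𝟙 _, τ₂ := 𝟙 X, τ₃ := kernel.ι g }
    have : Epi φ.τ₁ := inferInstanceAs (Epi (cokernel.π f))
    have : IsIso φ.τ₂ := inferInstanceAs (IsIso (𝟙 X))
    have : Mono φ.τ₃ := inferInstanceAs (Mono (𝟙 D))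
    have : Epi ψ.τ₁ := inferInstanceAs (Epi (𝟙 _))
    have : IsIso ψ.τ₂ := inferInstanceAs (IsIso (𝟙 X))
    have : Mono ψ.τ₃ := inferInstanceAs (Mono (kernel.ι g))
    have hex : S.Exact := (ShortComplex.exact_iff_of_epi_of_isIso_of_mono ψ).2
      ((ShortComplex.exact_iff_of_epi_of_isIso_of_mono φ).1 h₂)
    exact { exact := hex, mono_f := hm, epi_g := he }
  exact Q.prop_X₂_of_shortExact hS (Q.prop_cokernel f hA hB) (Q.prop_kernel g hD hE)

theorem bddIn_of_triangle [Q.IsClosedUnderIsomorphisms] [Q.IsClosedUnderKernels]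
    [Q.IsClosedUnderCokernels] [Q.IsClosedUnderExtensions] {T : Triangle (DerivedCategory C)}
    (hT : T ∈ distTriang _) (h₁ : BddIn Q T.obj₁) (h₃ : BddIn Q T.obj₃) : BddIn Q T.obj₂ := by
  obtain ⟨⟨a, b, ha, hb⟩, h₁⟩ := h₁
  obtain ⟨⟨a', b', ha', hb'⟩, h₃⟩ := h₃
  refine ⟨⟨min a a', max b b', ?_, ?_⟩, fun i => ?_⟩
  · exact TStructure.t.isGE₂ T hT _ (TStructure.t.isGE_of_ge _ _ a (min_le_left _ _))
      (TStructure.t.isGE_of_ge _ _ a' (min_le_right _ _))
  · exact TStructure.t.isLE₂ T hT _ (TStructure.t.isLE_of_le _ b _ (le_max_left _ _))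
      (TStructure.t.isLE_of_le _ b' _ (le_max_right _ _))
  · exact mem_of_exact (HomologySequence.δ_comp T hT (i - 1) i (by lia)) _
      (HomologySequence.comp_δ T hT i (i + 1) (by lia))
      (HomologySequence.exact₁ T hT (i - 1) i (by lia)) (HomologySequence.exact₂ T hT i)
      (HomologySequence.exact₃ T hT i (i + 1) (by lia)) (h₃ _) (h₁ _) (h₃ _) (h₁ _)

lemma BddIn.shift [Q.IsClosedUnderIsomorphisms] {X : DerivedCategory C} (h : BddIn Q X)
    (n : ℤ) : BddIn Q (X⟦n⟧) := by
  obtain ⟨⟨a, b, ha, hb⟩, h⟩ := h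
  refine ⟨⟨a - n, b - n, TStructure.t.isGE_shift X a n _ (by lia),
    TStructure.t.isLE_shift X b n _ (by lia)⟩, fun i => ?_⟩
  exact Q.prop_of_iso (((homologyFunctor C 0).shiftIso n i (n + i) rfl).symm.app X) (h (n + i))

lemma bddIn_of_isZero [Q.ContainsZero] [Q.IsClosedUnderIsomorphisms] {X : DerivedCategory C}
    (h : IsZero X) : BddIn Q X :=
  ⟨⟨0, 0, TStructure.t.isGE_of_isZero h 0, TStructure.t.isLE_of_isZero h 0⟩, fun i =>
    Q.prop_of_isZero ((homologyFunctor C i).map_isZero h)⟩

instance [Q.ContainsZero] [Q.IsClosedUnderIsomorphisms] [Q.IsClosedUnderKernels]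
    [Q.IsClosedUnderCokernels] [Q.IsClosedUnderExtensions] :
    ObjectProperty.IsTriangulated (BddIn (C := C) Q) where
  exists_zero := by
    obtain ⟨Z, hZ⟩ := HasZeroObject.zero (C := DerivedCategory C)
    exact ⟨Z, hZ, bddIn_of_isZero hZ⟩
  isStableUnderShiftBy n := ⟨fun _ h => h.shift n⟩
  ext₂' T hT h₁ h₃ := ObjectProperty.le_isoClosure _ _ (bddIn_of_triangle hT h₁ h₃)

omit [HasDerivedCategory.{w} C] in
/-- a retract is the kernel of an endomorphism -/
lemma mem_of_retract [Q.IsClosedUnderKernels] {A B : C} (r : Retract A B) (h : Q B) : Q A := by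
  refine Q.prop_of_isLimit_kernelFork (f := 𝟙 B - r.r ≫ r.i)
    (k := KernelFork.ofι r.i (by simp)) ?_ h h
  refine KernelFork.IsLimit.ofι _ _ (fun x hx => x ≫ r.r) (fun x hx => ?_) (fun x hx m hm => ?_)
  · have : x = x ≫ r.r ≫ r.i := by
      rw [Preadditive.comp_sub, Category.comp_id, sub_eq_zero] at hx
      exact hx
    simpa using this.symm
  · rw [← hm]
    simp

instance [Q.IsClosedUnderKernels] :
    ObjectProperty.IsStableUnderRetracts (BddIn (C := C) Q) where
  of_retract {X Y} r h := by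
    obtain ⟨⟨a, b, ha, hb⟩, h⟩ := h
    refine ⟨⟨a, b, ?_, ?_⟩, fun i => mem_of_retract (r.map (homologyFunctor C i)) (h i)⟩
    · rw [isGE_iff]
      intro i hi
      exact mem_of_retract (Q := IsZero) (r.map (homologyFunctor C i)) (Y.isZero_of_isGE a i hi)
    · rw [isLE_iff]
      intro i hi
      exact mem_of_retract (Q := IsZero) (r.map (homologyFunctor C i)) (Y.isZero_of_isLE b i hi)

end closure

end Orl.Perf
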