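import Pool.Agent.Work.MP_a6e60d_ag.Perf.Restr
import Pool.Agent.Work.MP_f714fc_ag.Geo.FinCover

/-!
# MP_a6e60d_ag: coherence of a module is a local property
-/

open CategoryTheory Limits TopologicalSpace AlgebraicGeometry Opposite

universe u

namespace Orl.Perf

open Fdim

noncomputable section

variable {X Y : Scheme.{u}}

lemma finite_of_ringEquiv {R S M : Type*} [CommRing R] [CommRing S] [AddCommGroup M] [Module R M]
    [Module S M] (e : R →+* S) (h : ∀ (r : R) (m : M), r • m = e r • m)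
    (_ : Module.Finite R M) : Module.Finite S M := by
  algebraize [e]
  have : IsScalarTower R S M := ⟨fun r s m => by
    rw [Algebra.smul_def, mul_smul, h]
    rfl⟩
  exact Module.Finite.of_restrictScalars_finite R S M

theorem finite_restrict_iff (f : X ⟶ Y) [IsOpenImmersion f] (M : Y.Modules) (V : X.Opens) :
    Module.Finite Γ(X, V) Γ(M.restrict f, V) ↔
      Module.Finite Γ(Y, f ''ᵁ V) Γ(M, f ''ᵁ V) := by
  constructor
  · intro h
    let _ : Module Γ(X, V) Γ(M, f ''ᵁ V) :=
      inferInstanceAs (Module Γ(X, V) Γ(M.restrict f, V))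
    exact finite_of_ringEquiv (R := Γ(X, V)) (S := Γ(Y, f ''ᵁ V)) (M := Γ(M, f ''ᵁ V))
      (f.appIso V).inv.hom (fun r m => rfl) h
  · intro h
    let _ : Module Γ(X, V) Γ(M, f ''ᵁ V) :=
      inferInstanceAs (Module Γ(X, V) Γ(M.restrict f, V))
    refine (finite_of_ringEquiv (R := Γ(Y, f ''ᵁ V)) (S := Γ(X, V)) (M := Γ(M, f ''ᵁ V))
      (f.appIso V).hom.hom (fun r m => ?_) h : Module.Finite Γ(X, V) Γ(M, f ''ᵁ V))
    change r • m = (f.appIso V).inv.hom ((f.appIso V).hom.hom r) • m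
    congr 1
    exact (congr($((f.appIso V).hom_inv_id) r)).symm

/-- coherent modules restrict to coherent modules -/
theorem isCoh_restrict {M : Y.Modules} (hM : IsCoh Y M) (f : X ⟶ Y) [IsOpenImmersion f] :
    IsCoh X (M.restrict f) := by
  have h0 : M.IsQuasicoherent := hM.1
  refine ⟨inferInstance, fun V => ?_⟩
  rw [finite_restrict_iff]
  exact hM.2 ⟨f ''ᵁ V, V.2.image_of_isOpenImmersion f⟩

/-- coherence is local -/
theorem isCoh_of_local {M : X.Modules}
    (h : ∀ x : X, ∃ U : X.Opens, x ∈ U ∧ IsCoh U (M.restrict U.ι)) : IsCoh X M := by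
  have h0 : M.IsQuasicoherent := by
    apply isQuasicoherent_of_affine
    intro x
    obtain ⟨U, hxU, hU⟩ := h x
    obtain ⟨W, hW, hxW, hWU⟩ := exists_isAffineOpen_mem_and_subset hxU
    refine ⟨W, hxW, hW, ?_⟩
    have h1 : (M.restrict U.ι).IsQuasicoherent := hU.1
    have hr : Set.range hW.fromSpec ⊆ Set.range U.ι := by
      rw [hW.range_fromSpec, Scheme.Opens.range_ι]
      exact hWU
    let g : Spec Γ(X, W) ⟶ U := IsOpenImmersion.lift U.ι hW.fromSpec hr
    have hg : g ≫ U.ι = hW.fromSpec := IsOpenImmersion.lift_fac _ _ _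
    have h2 : ((M.restrict U.ι).restrict g).IsQuasicoherent := inferInstance
    exact isQuasicoherent_of_iso ((Scheme.Modules.restrictFunctorComp g U.ι).symm ≪≫
      Scheme.Modules.restrictFunctorCongr hg |>.app M) h2
  refine ⟨h0, fun W => finite_of_cover M W.2 fun x _ => ?_⟩
  obtain ⟨U, hxU, hU⟩ := h x
  refine ⟨U, hxU, fun V hV hVU _ => ?_⟩
  have e : U.ι ''ᵁ (U.ι ⁻¹ᵁ V) = V := by
    rw [Scheme.Hom.image_preimage_eq_opensRange_inf, Scheme.Opens.opensRange_ι]
    exact inf_eq_right.2 hVU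
  have hV' : IsAffineOpen (U.ι ⁻¹ᵁ V) := by
    rw [← U.ι.isAffineOpen_iff_of_isOpenImmersion]
    rw [e]
    exact hV
  have h3 := (finite_restrict_iff U.ι M _).1 (hU.2 ⟨_, hV'⟩)
  rw [e] at h3
  exact h3

end

end Orl.Perf
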