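import Pool.Agent.Work.MP_a6e60d_ag.Perf.ResAff
import Pool.Agent.Work.MP_a6e60d_ag.Perf.Loc

/-!
# MP_a6e60d_ag: coherent sheaves with projective sections on an affine scheme are locally free
-/

open CategoryTheory Limits TopologicalSpace AlgebraicGeometry Opposite Abelian

attribute [-instance] CategoryTheory.catToReflQuiver

attribute [local instance] CategoryTheory.Abelian.hasFiniteBiproducts

universe w u

namespace Orl.Perf

open Fdim Fdim.Coh

/-- a finitely generated projective module is free near every prime ideal -/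
theorem exists_local_free {A M : Type*} [CommRing A] [AddCommGroup M] [Module A M]
    [Module.Finite A M] [Module.Projective A M] (p : Ideal A) [p.IsPrime] :
    ∃ (f : A) (_ : f ∉ p) (n : ℕ) (φ : (Fin n → A) →ₗ[A] M) (ψ : M →ₗ[A] (Fin n → A)),
      (∀ m, φ (ψ m) = f • m) ∧ ∀ v, ψ (φ v) = f • v := by
  have : Module.FinitePresentation A M := Module.finitePresentation_of_projective _ _
  let S := p.primeCompl
  let Ap := Localization.AtPrime p
  let Mp := LocalizedModule S M
  let mk : M →ₗ[A] Mp := LocalizedModule.mkLinearMap S M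
  have : Module.Finite Ap Mp := Module.Finite.of_isLocalizedModule S (Rₚ := Ap) mk
  have : Module.Flat Ap Mp := inferInstance
  have : Module.Free Ap Mp := Module.free_of_flat_of_isLocalRing
  let n := Module.finrank Ap Mp
  let b : Module.Basis (Fin n) Ap Mp := Module.finBasis Ap Mp
  let g : (Fin n →₀ A) →ₗ[A] (Fin n →₀ Ap) :=
    Finsupp.mapRange.linearMap (Algebra.linearMap A Ap)
  have hg : IsLocalizedModule S g := inferInstance
  let e : Mp ≃ₗ[A] (Fin n →₀ Ap) := b.repr.restrictScalars A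
  obtain ⟨ψ, s, hψ⟩ := Module.FinitePresentation.exists_lift_of_isLocalizedModule S g
    (e.toLinearMap ∘ₗ mk)
  obtain ⟨φ, t, hφ⟩ := Module.FinitePresentation.exists_lift_of_isLocalizedModule S mk
    (e.symm.toLinearMap ∘ₗ g)
  have h1 : mk ∘ₗ (φ ∘ₗ ψ) = mk ∘ₗ ((t * s : A) • LinearMap.id) := by
    ext m
    have h2 := LinearMap.congr_fun hφ (ψ m)
    have h3 := LinearMap.congr_fun hψ m
    simp only [LinearMap.comp_apply, LinearMap.smul_apply, LinearEquiv.coe_coe] at h2 h3
    simp only [LinearMap.comp_apply, LinearMap.smul_apply, LinearMap.id_apply, map_smul]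
    rw [h2, h3]
    rw [Submonoid.smul_def, Submonoid.smul_def, map_smul, LinearEquiv.symm_apply_apply, mul_smul]
  have h4 : g ∘ₗ (ψ ∘ₗ φ) = g ∘ₗ ((t * s : A) • LinearMap.id) := by
    refine LinearMap.ext fun m => ?_
    have h2 := LinearMap.congr_fun hφ m
    have h3 := LinearMap.congr_fun hψ (φ m)
    simp only [LinearMap.comp_apply, LinearMap.smul_apply, LinearEquiv.coe_coe] at h2 h3
    simp only [LinearMap.comp_apply, LinearMap.smul_apply, LinearMap.id_apply, map_smul]
    rw [h3, h2]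
    rw [Submonoid.smul_def, Submonoid.smul_def, map_smul, LinearEquiv.apply_symm_apply,
      ← mul_smul, mul_comm]
  obtain ⟨u, hu⟩ := Module.Finite.exists_smul_of_comp_eq_of_isLocalizedModule S mk _ _ h1
  obtain ⟨v, hv⟩ := Module.Finite.exists_smul_of_comp_eq_of_isLocalizedModule S g _ _ h4
  let E : (Fin n →₀ A) ≃ₗ[A] (Fin n → A) := Finsupp.linearEquivFunOnFinite A A (Fin n)
  refine ⟨u * v * (t * s), ?_, n, ((u * v : A) • φ) ∘ₗ E.symm.toLinearMap, E.toLinearMap ∘ₗ ψ,
    fun m => ?_, fun w => ?_⟩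
  · exact (u * v * (t * s) : S).2
  · have h5 := LinearMap.congr_fun hu m
    simp only [Submonoid.smul_def, LinearMap.comp_apply, LinearMap.smul_apply,
      LinearMap.id_apply] at h5
    simp only [LinearMap.comp_apply, LinearMap.smul_apply, LinearEquiv.coe_coe,
      LinearEquiv.symm_apply_apply]
    rw [mul_comm (u : A) v, mul_smul, h5, ← mul_smul, ← mul_smul]
  · have h5 := LinearMap.congr_fun hv (E.symm w)
    simp only [Submonoid.smul_def, LinearMap.comp_apply, LinearMap.smul_apply,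
      LinearMap.id_apply] at h5
    simp only [LinearMap.comp_apply, LinearMap.smul_apply, LinearEquiv.coe_coe, map_smul]
    rw [mul_smul, ← map_smul E, h5]
    simp only [map_smul, LinearEquiv.apply_symm_apply, mul_smul]


variable {X : Scheme.{u}}

/-- finite free sheaves of modules -/
def FinFree (X : Scheme.{u}) : ObjectProperty X.Modules := fun N =>
  ∃ n : ℕ, Nonempty (N ≅ ⨁ fun _ : Fin n => OX X)

instance : (FinFree X).IsClosedUnderIsomorphisms where
  of_iso e h := by
    obtain ⟨n, ⟨i⟩⟩ := h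
    exact ⟨n, ⟨e.symm ≪≫ i⟩⟩

lemma finFree_of_isZero {Z : X.Modules} (h : IsZero Z) : FinFree X Z := by
  refine ⟨0, ⟨h.iso ?_⟩⟩
  rw [IsZero.iff_id_eq_zero]
  apply biproduct.hom_ext
  intro j
  exact j.elim0

instance : (FinFree X).ContainsZero where
  exists_zero := by
    obtain ⟨Z, hZ⟩ := HasZeroObject.zero (C := X.Modules)
    exact ⟨Z, hZ, finFree_of_isZero hZ⟩

/-- restrictions of finite free sheaves -/
lemma FinFree.restrict {Y : Scheme.{u}} {N : X.Modules} (h : FinFree X N) (j : Y ⟶ X)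
    [IsOpenImmersion j] : FinFree Y (N.restrict j) := by
  obtain ⟨n, ⟨e⟩⟩ := h
  exact ⟨n, ⟨(Scheme.Modules.restrictFunctor j).mapIso e ≪≫
    (Scheme.Modules.restrictFunctor j).mapBiproduct _ ≪≫
    biproduct.mapIso fun _ => Scheme.Modules.restrictUnitIso j⟩⟩

/-- multiplication by a function -/
noncomputable def mulH (f : Γ(X, ⊤)) (N : X.Modules) : N ⟶ N :=
  homMk (fun U =>
    { toFun := fun s => (rO (le_top : U ≤ ⊤) f : Γ(X, U)) • s
      map_zero' := smul_zero _
      map_add' := smul_add _ })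
    (fun U r s => smul_comm (rO (le_top : U ≤ ⊤) f : Γ(X, U)) r s)
    (fun {U V} h s => by
      change (rO (le_top : V ≤ ⊤) f : Γ(X, V)) • rs N h s =
        rs N h ((rO (le_top : U ≤ ⊤) f : Γ(X, U)) • s)
      rw [rs_smul, rO_rO])

lemma ap_mulH (f : Γ(X, ⊤)) (N : X.Modules) (U : X.Opens) (s : Γ(N, U)) :
    ap (mulH f N) U s = (rO (le_top : U ≤ ⊤) f : Γ(X, U)) • s := rfl

lemma mulH_comm (f : Γ(X, ⊤)) {N N' : X.Modules} (g : N ⟶ N') :
    mulH f N ≫ g = g ≫ mulH f N' := by
  apply hom_ext'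
  intro U s
  rw [ap_comp, ap_comp, ap_mulH, ap_mulH, ap_smul]

/-- multiplication by `f` is bijective on `D(f)` -/
lemma bijective_mulH (f : Γ(X, ⊤)) (N : X.Modules) {U : X.Opens} (hU : U ≤ X.basicOpen f) :
    Function.Bijective (ap (mulH f N) U) := by
  have h1 : IsUnit (rO (le_top : U ≤ ⊤) f) := by
    have h2 := (qu_isUnit_rO f).map (rO hU)
    rwa [rO_rO] at h2
  obtain ⟨v, hv⟩ := h1
  constructor
  · intro s t h
    rw [ap_mulH, ap_mulH, ← hv] at h
    have h2 := congrArg (fun z => ((v⁻¹ : Γ(X, U)ˣ) : Γ(X, U)) • z) h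
    simpa [smul_smul] using h2
  · intro s
    refine ⟨((v⁻¹ : Γ(X, U)ˣ) : Γ(X, U)) • s, ?_⟩
    rw [ap_mulH, ← hv, smul_smul]
    simp

lemma bijective_of_mulH {f : Γ(X, ⊤)} {M N : X.Modules} (φ : M ⟶ N) (ψ : N ⟶ M)
    (h1 : φ ≫ ψ = mulH f M) (h2 : ψ ≫ φ = mulH f N) {V : X.Opens} (hV : V ≤ X.basicOpen f) :
    Function.Bijective (ap φ V) := by
  have h3 := bijective_mulH f M hV
  have h4 := bijective_mulH f N hV
  constructor
  · intro s t hst
    apply h3.1
    rw [← h1, ap_comp, ap_comp, hst]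
  · intro s
    obtain ⟨t, ht⟩ := h4.2 s
    refine ⟨ap ψ V t, ?_⟩
    rwa [← h2, ap_comp] at ht

/-- two morphisms which are inverse to each other up to `f` are isomorphisms on `D(f)` -/
theorem isIso_restrict_of_mulH {f : Γ(X, ⊤)} {M N : X.Modules} (φ : M ⟶ N) (ψ : N ⟶ M)
    (h1 : φ ≫ ψ = mulH f M) (h2 : ψ ≫ φ = mulH f N) {Y : Scheme.{u}} (j : Y ⟶ X)
    [IsOpenImmersion j] (hj : j.opensRange ≤ X.basicOpen f) :
    IsIso ((Scheme.Modules.restrictFunctor j).map φ) := by
  apply isIso_of_bijective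
  intro V
  have hV : j ''ᵁ V ≤ X.basicOpen f := by
    refine le_trans ?_ hj
    rintro _ ⟨y, _, rfl⟩
    exact ⟨y, rfl⟩
  exact bijective_of_mulH φ ψ h1 h2 hV

/-- a global section of the structure sheaf on `⊤` is determined by its value -/
lemma ofSec_top {M : X.Modules} (s : Γ(M, ⊤)) (r : Γ(X, ⊤)) : ap (ofSec s) ⊤ (toOX r) = r • s := by
  rw [ap_ofSec, rs_self]

/-- **Local freeness** -/
theorem exists_finFree_nhd [IsAffine X] {N : X.Modules} (hN : LFr X N) (x : X) :
    ∃ W : X.Opens, x ∈ W ∧ ∀ {Y : Scheme.{u}} (j : Y ⟶ X) [IsOpenImmersion j],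
      j.opensRange ≤ W → FinFree Y (N.restrict j) := by
  have hfin := fin_top hN.1
  have hpr := hN.2
  have hU := isAffineOpen_top X
  let p : Ideal Γ(X, ⊤) := RingHom.ker (X.evaluation (⊤ : X.Opens) x (Opens.mem_top x)).hom
  have hp : p.IsPrime := RingHom.ker_isPrime _
  obtain ⟨f, hf, n, φ, ψ, h1, h2⟩ := exists_local_free (M := Γ(N, ⊤)) p
  have hxf : x ∈ X.basicOpen f := by
    rw [← X.evaluation_ne_zero_iff_mem_basicOpen x (Opens.mem_top x) f]
    exact hf
  -- the morphism from the free module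
  let e : Fin n → (Fin n → Γ(X, ⊤)) := fun i => Pi.single i 1
  let Φ : (⨁ fun _ : Fin n => OX X) ⟶ N := biproduct.desc fun i => ofSec (φ (e i))
  let ψ' : Fin n → (Γ(N, ⊤) →ₗ[Γ(X, ⊤)] Γ(OX X, ⊤)) := fun i =>
    { toFun := fun s => toOX (ψ s i)
      map_add' := fun s t => by
        rw [map_add]
        rfl
      map_smul' := fun r s => by
        rw [map_smul]
        rfl }
  have hψ : ∀ i : Fin n, ∃ g : N ⟶ OX X, ∀ s, ap g ⊤ s = toOX (ψ s i) := fun i =>
    (qu_top hN.1).exists_hom hU hfin (ψ' i)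
  choose g hg using hψ
  let Ψ : N ⟶ (⨁ fun _ : Fin n => OX X) := biproduct.lift g
  have k1 : Ψ ≫ Φ = mulH f N := by
    apply (qu_top hN.1).hom_ext hU
    intro s
    have h3 : Ψ ≫ Φ = ∑ i, g i ≫ ofSec (φ (e i)) := biproduct.lift_desc
    have h4 : ∀ (I : Finset (Fin n)), ap (∑ i ∈ I, g i ≫ ofSec (φ (e i))) ⊤ s =
        ∑ i ∈ I, ψ s i • φ (e i) := by
      intro I
      induction I using Finset.cons_induction with
      | empty => simp
      | cons i I hi ih => rw [Finset.sum_cons, Finset.sum_cons, ap_add, ih, ap_comp, hg, ofSec_top]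
    rw [h3, h4, ap_mulH, rO_self, ← h1 s]
    conv_rhs => rw [← Finset.univ_sum_single (ψ s)]
    rw [map_sum]
    refine Finset.sum_congr rfl fun i _ => ?_
    rw [← map_smul]
    congr 1
    ext j
    simp [e, Pi.single_apply]
  have k2 : Φ ≫ Ψ = mulH f _ := by
    apply biproduct.hom_ext'
    intro i
    apply biproduct.hom_ext
    intro j
    have h3 : biproduct.ι (fun _ : Fin n => OX X) i ≫ Φ = ofSec (φ (e i)) := biproduct.ι_desc _ _
    have h4 : Ψ ≫ biproduct.π (fun _ : Fin n => OX X) j = g j := biproduct.lift_π _ _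
    rw [Category.assoc, Category.assoc, Category.assoc, h4, mulH_comm f
      (biproduct.π (fun _ : Fin n => OX X) j), reassoc_of% h3]
    have h6 : oEquiv _ (ofSec (φ (e i)) ≫ g j) = toOX ((f • e i) j) := by
      change ap (ofSec (φ (e i)) ≫ g j) ⊤ (toOX 1) = _
      rw [ap_comp, ofSec_top, one_smul, hg, h2]
    apply (oEquiv _).injective
    rw [h6]
    by_cases hij : i = j
    · subst hij
      rw [biproduct.ι_π_self_assoc]
      change _ = ap (mulH f (OX X)) ⊤ (toOX 1)
      rw [ap_mulH, rO_self, ← toOX_eq]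
      simp [e]
    · rw [biproduct.ι_π_ne_assoc _ hij, zero_comp]
      change _ = ap (0 : OX X ⟶ OX X) ⊤ (toOX 1)
      rw [ap_zero]
      simp [e, Ne.symm hij]
      rfl
  refine ⟨X.basicOpen f, hxf, fun {Y} j _ hj => ?_⟩
  have := isIso_restrict_of_mulH Φ Ψ k2 k1 j hj
  have h5 : FinFree X (⨁ fun _ : Fin n => OX X) := ⟨n, ⟨Iso.refl _⟩⟩
  exact (FinFree Y).prop_of_iso (asIso ((Scheme.Modules.restrictFunctor j).map Φ)) (h5.restrict j)

end Orl.Perf
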