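import Pool.Agent.Work.MP_a6e60d_ag.Perf.Coh
import Pool.Agent.Work.MP_a6e60d_ag.Perf.Loc

/-!
# MP_a6e60d_ag: complexes which are locally bounded with coherent cohomology
-/

open CategoryTheory Limits TopologicalSpace AlgebraicGeometry Opposite DerivedCategory

attribute [-instance] CategoryTheory.catToReflQuiver

universe w v u v' u' w'

namespace Orl.Perf

open Fdim

noncomputable section

section abstract

variable {C : Type u} [Category.{v} C] [Abelian C]

lemma mem_homology {Q : ObjectProperty C} [Q.IsClosedUnderIsomorphisms] [Q.IsClosedUnderKernels]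
    [Q.IsClosedUnderCokernels] (S : ShortComplex C) (h₁ : Q S.X₁) (h₂ : Q S.X₂) (h₃ : Q S.X₃) :
    Q S.homology := by
  have hk : Q S.cycles := Q.prop_of_iso S.cyclesIsoKernel.symm (Q.prop_kernel S.g h₂ h₃)
  exact Q.prop_of_isColimit_cokernelCofork (S.homologyIsCokernel) h₁ hk

variable [HasDerivedCategory.{w} C]

/-- bounded complexes of objects of `Q` -/
theorem bddIn_Q_obj {Q : ObjectProperty C} [Q.IsClosedUnderIsomorphisms]
    [Q.IsClosedUnderKernels] [Q.IsClosedUnderCokernels] (E : CochainComplex C ℤ) (a b : ℤ)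
    [E.IsStrictlyGE a] [E.IsStrictlyLE b] (h : ∀ i, Q (E.X i)) :
    BddIn Q (DerivedCategory.Q.obj E) := by
  refine ⟨⟨a, b, inferInstance, inferInstance⟩, fun i => ?_⟩
  exact Q.prop_of_iso ((homologyFunctorFactors C i).symm.app E)
    (mem_homology (E.sc i) (h _) (h _) (h _))

variable {D : Type u'} [Category.{v'} D] [Abelian D] [HasDerivedCategory.{w'} D]

/-- the cohomology of the image of a complex under an exact functor -/
def homologyMapIso (F : C ⥤ D) [F.Additive] [F.PreservesHomology] (K : CochainComplex C ℤ)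
    (i : ℤ) : (homologyFunctor D i).obj (DerivedCategory.Q.obj
      ((F.mapHomologicalComplex _).obj K)) ≅
        F.obj ((homologyFunctor C i).obj (DerivedCategory.Q.obj K)) :=
  (homologyFunctorFactors D i).app _ ≪≫ (K.sc i).mapHomologyIso F ≪≫
    F.mapIso ((homologyFunctorFactors C i).symm.app K)

end abstract

variable {X : Scheme.{u}}

/-- a module which is locally zero is zero -/
theorem isZero_of_local {M : X.Modules}
    (h : ∀ x : X, ∃ U : X.Opens, x ∈ U ∧ IsZero (M.restrict U.ι)) : IsZero M := by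
  rw [IsZero.iff_id_eq_zero]
  apply hom_ext'
  intro V s
  rw [ap_id, ap_zero]
  choose U hxU hU using h
  refine sec_ext M (U := fun x : X => U x ⊓ V) (fun x => inf_le_right) ?_ fun x => ?_
  · intro x hx
    exact Opens.mem_iSup.2 ⟨x, hxU x, hx⟩
  · rw [map_zero]
    have e : (U x).ι ''ᵁ ((U x).ι ⁻¹ᵁ V) = U x ⊓ V := by
      rw [Scheme.Hom.image_preimage_eq_opensRange_inf, Scheme.Opens.opensRange_ι]
    have h0 : ∀ t : Γ(M, (U x).ι ''ᵁ ((U x).ι ⁻¹ᵁ V)), t = 0 := fun t =>
      Coh.sec_zero_of_isZero (hU x) (U := (U x).ι ⁻¹ᵁ V) t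
    rw [e] at h0
    exact h0 _

variable [HasDerivedCategory.{w} X.Modules]

/-- bounded coherent cohomology is a local property on a quasi-compact scheme -/
theorem bddIn_of_local [CompactSpace X] (K : CochainComplex X.Modules ℤ)
    (h : ∀ x : X, ∃ U : X.Opens, x ∈ U ∧ ∃ (_ : HasDerivedCategory.{w} U.toScheme.Modules),
      BddIn (IsCoh U.toScheme) (DerivedCategory.Q.obj
        (((Scheme.Modules.restrictFunctor U.ι).mapHomologicalComplex _).obj K))) :
    BddIn (IsCoh X) (DerivedCategory.Q.obj K) := by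
  choose U hxU inst hB using h
  obtain ⟨t, ht⟩ := CompactSpace.elim_nhds_subcover (fun x => (U x : Set X))
    (fun x => (U x).isOpen.mem_nhds (hxU x))
  have hcov : ∀ y : X, ∃ x ∈ t, y ∈ U x := by
    intro y
    have hy : y ∈ ⋃ x ∈ t, (U x : Set X) := by
      rw [ht]
      trivial
    simpa using hy
  choose a b ha hb using fun x => (hB x).1
  obtain ⟨a₀, ha₀⟩ := (t.image a).bddBelow
  obtain ⟨b₀, hb₀⟩ := (t.image b).bddAbove
  refine ⟨⟨a₀, b₀, ?_, ?_⟩, fun i => ?_⟩
  · rw [isGE_iff]
    intro i hi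
    apply isZero_of_local
    intro y
    obtain ⟨x, hx, hy⟩ := hcov y
    refine ⟨U x, hy, ?_⟩
    have := ha x
    have h1 : a₀ ≤ a x := ha₀ (by simpa using ⟨x, hx, rfl⟩)
    exact (isZero_of_isGE _ (a x) i (by lia)).of_iso
      (homologyMapIso (Scheme.Modules.restrictFunctor (U x).ι) K i).symm
  · rw [isLE_iff]
    intro i hi
    apply isZero_of_local
    intro y
    obtain ⟨x, hx, hy⟩ := hcov y
    refine ⟨U x, hy, ?_⟩
    have := hb x
    have h1 : b x ≤ b₀ := hb₀ (by simpa using ⟨x, hx, rfl⟩)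
    exact (isZero_of_isLE _ (b x) i (by lia)).of_iso
      (homologyMapIso (Scheme.Modules.restrictFunctor (U x).ι) K i).symm
  · apply isCoh_of_local
    intro y
    refine ⟨U y, hxU y, ?_⟩
    exact (IsCoh _).prop_of_iso
      (homologyMapIso (Scheme.Modules.restrictFunctor (U y).ι) K i) ((hB y).2 i)

end

end Orl.Perf
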