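import Pool.Agent.Work.MP_a6e60d_ag.Perf.LocFree
import Pool.Agent.Work.MP_a6e60d_ag.Perf.P1

/-!
# MP_a6e60d_ag: complexes with bounded coherent cohomology are perfect on regular schemes
-/

open CategoryTheory Limits TopologicalSpace AlgebraicGeometry Opposite Abelian DerivedCategory

attribute [-instance] CategoryTheory.catToReflQuiver

attribute [local instance] CategoryTheory.Abelian.hasFiniteBiproducts

universe w u

namespace Orl.Perf

open Fdim Fdim.Coh Fdim.Loc

variable {X : Scheme.{u}}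

/-- the restriction of complexes to an open subscheme -/
noncomputable abbrev resCx {Y : Scheme.{u}} (j : Y ⟶ X) [IsOpenImmersion j]
    (K : CochainComplex X.Modules ℤ) : CochainComplex Y.Modules ℤ :=
  ((Scheme.Modules.restrictFunctor j).mapHomologicalComplex _).obj K

lemma resCx_strictlyGE {Y : Scheme.{u}} (j : Y ⟶ X) [IsOpenImmersion j]
    (K : CochainComplex X.Modules ℤ) (a : ℤ) [K.IsStrictlyGE a] : (resCx j K).IsStrictlyGE a := by
  rw [CochainComplex.isStrictlyGE_iff]
  intro i hi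
  exact (Scheme.Modules.restrictFunctor j).map_isZero (K.isZero_of_isStrictlyGE a i hi)

lemma resCx_strictlyLE {Y : Scheme.{u}} (j : Y ⟶ X) [IsOpenImmersion j]
    (K : CochainComplex X.Modules ℤ) (a : ℤ) [K.IsStrictlyLE a] : (resCx j K).IsStrictlyLE a := by
  rw [CochainComplex.isStrictlyLE_iff]
  intro i hi
  exact (Scheme.Modules.restrictFunctor j).map_isZero (K.isZero_of_isStrictlyLE a i hi)

/-- restriction in two steps -/
noncomputable def resCxComp {Y Z : Scheme.{u}} (i : Z ⟶ Y) (j : Y ⟶ X) (h : Z ⟶ X)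
    [IsOpenImmersion i] [IsOpenImmersion j] [IsOpenImmersion h] (e : i ≫ j = h)
    (K : CochainComplex X.Modules ℤ) : resCx i (resCx j K) ≅ resCx h K :=
  (NatIso.mapHomologicalComplex ((Scheme.Modules.restrictFunctorComp i j).symm ≪≫
    Scheme.Modules.restrictFunctorCongr e) (ComplexShape.up ℤ)).app K

/-- restriction preserves isomorphisms of the derived category -/
theorem resCx_iso [HasDerivedCategory.{w} X.Modules] {Y : Scheme.{u}}
    [HasDerivedCategory.{w} Y.Modules] (j : Y ⟶ X) [IsOpenImmersion j]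
    {K L : CochainComplex X.Modules ℤ} (e : Q.obj K ≅ Q.obj L) :
    Nonempty (Q.obj (resCx j K) ≅ Q.obj (resCx j L)) := by
  let F := Scheme.Modules.restrictFunctor j
  exact ⟨(F.mapDerivedCategoryFactors.app K).symm ≪≫ F.mapDerivedCategory.mapIso e ≪≫
    F.mapDerivedCategoryFactors.app L⟩

theorem bddIn_resCx [HasDerivedCategory.{w} X.Modules] {Y : Scheme.{u}}
    [HasDerivedCategory.{w} Y.Modules] (j : Y ⟶ X) [IsOpenImmersion j]
    {K : CochainComplex X.Modules ℤ} (hK : BddIn (IsCoh X) (Q.obj K)) :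
    BddIn (IsCoh Y) (Q.obj (resCx j K)) := by
  obtain ⟨⟨a, b, ha, hb⟩, h⟩ := hK
  refine ⟨⟨a, b, ?_, ?_⟩, fun i => ?_⟩
  · rw [isGE_iff]
    intro i hi
    exact ((Scheme.Modules.restrictFunctor j).map_isZero (isZero_of_isGE _ a i hi)).of_iso
      (homologyMapIso (Scheme.Modules.restrictFunctor j) K i)
  · rw [isLE_iff]
    intro i hi
    exact ((Scheme.Modules.restrictFunctor j).map_isZero (isZero_of_isLE _ b i hi)).of_iso
      (homologyMapIso (Scheme.Modules.restrictFunctor j) K i)
  · exact (IsCoh Y).prop_of_iso (homologyMapIso (Scheme.Modules.restrictFunctor j) K i).symm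
      (isCoh_restrict (h i) j)

/-- **Bounded coherent complexes are perfect**: on a locally noetherian scheme which is locally of
finite global dimension, every complex with bounded coherent cohomology is locally isomorphic in
the derived category to a bounded complex of finite free modules. -/
theorem exists_locFree [IsLocallyNoetherian X] (hX : LocGD X) [HasDerivedCategory.{w} X.Modules]
    [∀ U : X.Opens, HasDerivedCategory.{w} U.toScheme.Modules]
    {K : CochainComplex X.Modules ℤ} (hK : BddIn (IsCoh X) (Q.obj K)) (x : X) :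
    ∃ U : X.Opens, x ∈ U ∧ ∃ (L : CochainComplex U.toScheme.Modules ℤ) (a b : ℤ),
      L.IsStrictlyGE a ∧ L.IsStrictlyLE b ∧ (∀ i, FinFree U.toScheme (L.X i)) ∧
        Nonempty (Q.obj L ≅ Q.obj (resCx U.ι K)) := by
  obtain ⟨V, d, hxV, hV⟩ := hX x
  have hVaff : IsAffine V := hV.1
  have hgd : GD Γ(V, ⊤) d := GD.of_ringEquiv V.topIso.symm.commRingCatIsoToRingEquiv hV.2
  have hN : IsNoetherianRing Γ(V, ⊤) :=
    IsLocallyNoetherian.component_noetherian ⟨⊤, isAffineOpen_top V⟩
  obtain ⟨b, a, L, h1, h2, h3, ⟨e⟩⟩ := bdTo_of_aff hgd (bddIn_resCx V.ι hK)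
  choose W hxW hW using fun i => exists_finFree_nhd (h3 i) ⟨x, hxV⟩
  let W₀ : V.toScheme.Opens := (Finset.Icc a b).inf W
  have hxW₀ : (⟨x, hxV⟩ : V.toScheme) ∈ W₀ := by
    have h5 : ∀ s : Finset ℤ, (⟨x, hxV⟩ : V.toScheme) ∈ s.inf W := by
      intro s
      induction s using Finset.cons_induction with
      | empty => exact Opens.mem_top _
      | cons i s hi ih => rw [Finset.inf_cons]; exact ⟨hxW i, ih⟩
    exact h5 _
  have hL : ∀ {Y : Scheme.{u}} (j : Y ⟶ V.toScheme) [IsOpenImmersion j],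
      j.opensRange ≤ W₀ → ∀ i, FinFree Y ((resCx j L).X i) := by
    intro Y j _ hj i
    by_cases hi : i ∈ Finset.Icc a b
    · exact hW i j (hj.trans (Finset.inf_le hi))
    · rw [Finset.mem_Icc, not_and_or] at hi
      apply finFree_of_isZero
      rcases hi with hi | hi
      · exact (Scheme.Modules.restrictFunctor j).map_isZero
          (L.isZero_of_isStrictlyGE a i (by lia))
      · exact (Scheme.Modules.restrictFunctor j).map_isZero
          (L.isZero_of_isStrictlyLE b i (by lia))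
  let U : X.Opens := V.ι ''ᵁ W₀
  have hUV : Set.range U.ι ⊆ Set.range V.ι := by
    rw [Scheme.Opens.range_ι, Scheme.Opens.range_ι]
    rintro _ ⟨y, _, rfl⟩
    exact y.2
  let j : U.toScheme ⟶ V.toScheme := IsOpenImmersion.lift V.ι U.ι hUV
  have hj : j ≫ V.ι = U.ι := IsOpenImmersion.lift_fac _ _ _
  have : IsOpenImmersion j := by
    have : IsOpenImmersion (j ≫ V.ι) := by rw [hj]; infer_instance
    exact IsOpenImmersion.of_comp j V.ι
  have hjr : j.opensRange ≤ W₀ := by
    rintro _ ⟨y, rfl⟩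
    have h5 : V.ι (j y) = U.ι y := by
      rw [← hj]
      rfl
    have h6 : U.ι y ∈ U := y.2
    obtain ⟨z, hz, h7⟩ := h6
    have h8 : z = j y := V.ι.isOpenEmbedding.injective (h7.trans h5.symm)
    rw [← h8]
    exact hz
  refine ⟨U, ⟨⟨x, hxV⟩, hxW₀, rfl⟩, resCx j L, a, b, resCx_strictlyGE j L a,
    resCx_strictlyLE j L b, hL j hjr, ?_⟩
  obtain ⟨e'⟩ := resCx_iso j e
  exact ⟨e' ≪≫ Q.mapIso (resCxComp j V.ι U.ι hj K)⟩

lemma isCoh_finFree {N : X.Modules} (h : FinFree X N) : IsCoh X N := by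
  obtain ⟨n, ⟨e⟩⟩ := h
  refine (IsCoh X).prop_of_iso ((biproduct.isoProduct _).symm ≪≫ e.symm) ?_
  exact (IsCoh X).prop_product fun _ => isCoh_unit

/-- **Perfect complexes have bounded coherent cohomology** (on a quasi-compact locally noetherian
scheme). -/
theorem bddIn_of_locFree [CompactSpace X] [HasDerivedCategory.{w} X.Modules]
    [∀ U : X.Opens, HasDerivedCategory.{w} U.toScheme.Modules] [IsLocallyNoetherian X]
    (K : CochainComplex X.Modules ℤ)
    (h : ∀ x : X, ∃ U : X.Opens, x ∈ U ∧ ∃ (L : CochainComplex U.toScheme.Modules ℤ) (a b : ℤ),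
      L.IsStrictlyGE a ∧ L.IsStrictlyLE b ∧ (∀ i, FinFree U.toScheme (L.X i)) ∧
        Nonempty (Q.obj L ≅ Q.obj (resCx U.ι K))) : BddIn (IsCoh X) (Q.obj K) := by
  refine bddIn_of_local K fun x => ?_
  obtain ⟨U, hxU, L, a, b, h1, h2, h3, ⟨e⟩⟩ := h x
  exact ⟨U, hxU, inferInstance, (bddIn_Q_obj L a b fun i => isCoh_finFree (h3 i)).of_iso e⟩

end Orl.Perf
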