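import Pool.Agent.Work.MP_a6e60d_ag.Perf.P4
import Pool.Agent.Work.MP_a6e60d_ag.Defs

/-!
# MP_a6e60d_ag: the definition of perfect complexes against bounded coherent cohomology
-/

open CategoryTheory Limits TopologicalSpace AlgebraicGeometry Opposite Abelian DerivedCategory

attribute [-instance] CategoryTheory.catToReflQuiver

attribute [local instance] CategoryTheory.Abelian.hasFiniteBiproducts

namespace Orl.Perf

open Fdim Fdim.Coh Fdim.Loc

variable {X : Scheme.{0}}

theorem finFree_iff (N : X.Modules) : FinFree X N ↔ ∃ r : ℕ, Nonempty (N ≅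
    ∐ fun _ : Fin r => (SheafOfModules.unit X.ringCatSheaf : X.Modules)) := by
  constructor
  · rintro ⟨r, ⟨e⟩⟩
    exact ⟨r, ⟨e ≪≫ biproduct.isoCoproduct (fun _ : Fin r => OX X)⟩⟩
  · rintro ⟨r, ⟨e⟩⟩
    exact ⟨r, ⟨e ≪≫ (biproduct.isoCoproduct (fun _ : Fin r => OX X)).symm⟩⟩

/-- on a quasi-compact locally noetherian scheme which is locally of finite global dimension the
perfect complexes are the complexes with bounded coherent cohomology -/
theorem isPerfect_iff [CompactSpace X] [IsLocallyNoetherian X] (hX : LocGD X)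
    (K : CochainComplex X.Modules ℤ) :
    FdDG.IsPerfect K ↔ BddIn (IsCoh X) (Q.obj K) := by
  constructor
  · intro h
    refine bddIn_of_locFree K fun x => ?_
    obtain ⟨U, hxU, F, ⟨⟨a, b, ha, hb⟩, hF⟩, e⟩ := h x
    exact ⟨U, hxU, F, a, b, ha, hb, fun i => (finFree_iff _).2 (hF i), e⟩
  · intro h x
    obtain ⟨U, hxU, L, a, b, ha, hb, hL, e⟩ := exists_locFree hX h x
    exact ⟨U, hxU, L, ⟨⟨a, b, ha, hb⟩, fun i => (finFree_iff _).1 (hL i)⟩, e⟩

theorem isPerfectObj_iff [CompactSpace X] [IsLocallyNoetherian X] (hX : LocGD X)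
    (E : DerivedCategory X.Modules) : FdDG.IsPerfectObj E ↔ BddIn (IsCoh X) E := by
  constructor
  · rintro ⟨K, hK, ⟨e⟩⟩
    exact ((isPerfect_iff hX K).1 hK).of_iso e
  · intro h
    obtain ⟨K, ⟨e⟩⟩ : ∃ K : CochainComplex X.Modules ℤ, Nonempty (Q.obj K ≅ E) :=
      ⟨_, ⟨Q.objObjPreimageIso E⟩⟩
    exact ⟨K, (isPerfect_iff hX K).2 (h.of_iso e.symm), ⟨e⟩⟩

end Orl.Perf
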