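import Pool.Agent.Work.MP_a6e60d_ag.Perf.Res
import Pool.Agent.Work.MP_a6e60d_ag.Perf.Coh
import Pool.Agent.Work.MP_a6e60d_ag.Perf.Dim
import Pool.Agent.Work.MP_f714fc_ag.Coh.Unit

/-!
# MP_a6e60d_ag: bounded resolutions on an affine scheme of finite global dimension
-/

open CategoryTheory Limits TopologicalSpace AlgebraicGeometry Opposite Abelian DerivedCategory

attribute [-instance] CategoryTheory.catToReflQuiver

universe w u

namespace Orl.Perf

open Fdim Fdim.Coh Fdim.Loc

variable {X : Scheme.{u}}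

/-- the coherent sheaves with projective global sections; on an affine scheme these are the vector
bundles -/
def LFr (X : Scheme.{u}) : ObjectProperty X.Modules := fun N =>
  IsCoh X N ∧ Module.Projective Γ(X, ⊤) Γ(N, ⊤)

lemma LFr.coh {N : X.Modules} (h : LFr X N) : IsCoh X N := h.1

/-- the isomorphism on sections -/
noncomputable def secIso {M N : X.Modules} (e : M ≅ N) (U : X.Opens) :
    Γ(M, U) ≃ₗ[Γ(X, U)] Γ(N, U) where
  toFun := ap e.hom U
  invFun := ap e.inv U
  left_inv s := by rw [← ap_comp, e.hom_inv_id, ap_id]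
  right_inv s := by rw [← ap_comp, e.inv_hom_id, ap_id]
  map_add' := map_add _
  map_smul' := ap_smul _ _

instance : (LFr X).IsClosedUnderIsomorphisms where
  of_iso e h := ⟨(IsCoh X).prop_of_iso e h.1, by
    have := h.2
    exact Module.Projective.of_equiv (secIso e ⊤)⟩

lemma lfr_of_isZero {Z : X.Modules} (h : IsZero Z) : LFr X Z := by
  refine ⟨isCoh_of_isZero h, ?_⟩
  have : Subsingleton Γ(Z, ⊤) := ⟨fun a b => by rw [sec_of_isZero h a, sec_of_isZero h b]⟩
  infer_instance

instance : (LFr X).ContainsZero where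
  exists_zero := by
    obtain ⟨Z, hZ⟩ := HasZeroObject.zero (C := X.Modules)
    exact ⟨Z, hZ, lfr_of_isZero hZ⟩

lemma lfr_biprod (A B : X.Modules) (hA : LFr X A) (hB : LFr X B) : LFr X (A ⊞ B) := by
  refine ⟨isCoh_biprod hA.1 hB.1, ?_⟩
  have := hA.2
  have := hB.2
  exact Module.Projective.of_equiv (biprodSecEquiv A B ⊤).symm

lemma lfr_freeU {P : X.Modules} (h : FreeU (⊤ : X.Opens) P) : LFr X P := by
  refine ⟨?_, h.projective⟩
  induction h with
  | zero h => exact isCoh_of_isZero h
  | zf => exact (IsCoh X).prop_of_iso zTopIso.symm isCoh_unit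
  | sum _ _ ha hb => exact isCoh_biprod ha hb

section aff

variable [IsAffine X]

lemma qu_top {N : X.Modules} (h : IsCoh X N) : QU (⊤ : X.Opens) N := by
  have := h.1
  have h1 := LocOn.of_isQuasicoherent N (isAffineOpen_top X)
  exact ⟨fun V s x _ hx => (hx trivial).elim, h1.inj, h1.surj⟩

lemma fin_top {N : X.Modules} (h : IsCoh X N) : Module.Finite Γ(X, ⊤) Γ(N, ⊤) :=
  h.2 ⟨⊤, isAffineOpen_top X⟩

lemma lfr_epi (N : X.Modules) (h : IsCoh X N) :
    ∃ (M : X.Modules) (_ : LFr X M) (p : M ⟶ N), Epi p := by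
  obtain ⟨P, hP, p, hp⟩ := exists_cover N (fin_top h)
  exact ⟨P, lfr_freeU hP, p, (qu_top h).epi (isAffineOpen_top X) p hp⟩

variable [HasDerivedCategory.{w} X.Modules]

lemma lfr_vanish (M N : X.Modules) (hM : LFr X M) (hN : IsCoh X N) (j : ℕ)
    (f : (singleFunctor X.Modules 0).obj M ⟶
      ((singleFunctor X.Modules 0).obj N)⟦((j + 1 : ℕ) : ℤ)⟧) : f = 0 := by
  let := HasExt.standard X.Modules
  have := hN.1
  have h5 : f = (Ext.homEquiv.symm f).hom := (Ext.homEquiv.apply_symm_apply f).symm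
  have h6 := (qu_top hM.1).ext_eq_zero_of_projective (isAffineOpen_top X)
    (fun n α => serre_vanishing N n ⊤ (isAffineOpen_top X) α) (fin_top hM.1) hM.2 j
    (Ext.homEquiv.symm f)
  rw [h5, h6, Ext.zero_hom]

/-- coherent sheaves have finite resolutions -/
theorem bdTo_single_of_pd [IsNoetherianRing Γ(X, ⊤)] [IsLocallyNoetherian X] (b : ℤ) (d : ℕ) :
    ∀ (N : X.Modules), IsCoh X N → HasProjectiveDimensionLE (ModuleCat.of Γ(X, ⊤) Γ(N, ⊤)) d →
      BdTo (LFr X) b ((singleFunctor X.Modules b).obj N) := by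
  induction d with
  | zero =>
    intro N hN hpd
    rw [projectiveDimensionLE_zero_iff] at hpd
    exact bdTo_single ⟨hN, hpd⟩ b
  | succ d ih =>
    intro N hN hpd
    obtain ⟨P, hP, p, hp⟩ := exists_cover N (fin_top hN)
    have hepi : Epi p := (qu_top hN).epi (isAffineOpen_top X) p hp
    have hS := kerSub_shortExact p
    have := hS.mono_f
    have hK : IsCoh X (Fdim.kerSub p).sh := by
      refine (IsCoh X).prop_of_iso ?_ ((IsCoh X).prop_kernel p (lfr_freeU hP).1 hN)
      exact (kernelIsKernel p).conePointUniqueUpToIso hS.fIsKernel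
    have hpr := hP.projective
    have h1 : HasProjectiveDimensionLE
        (ModuleCat.of Γ(X, ⊤) Γ((Fdim.kerSub p).sh, ⊤)) d := by
      have h2 := (pd_ker (f := apL p ⊤) hp d).1 hpd
      exact hasProjectiveDimensionLT_of_iso (kerSubEquiv p ⊤).symm.toModuleIso _
    exact BdTo.step lfr_biprod hS (lfr_freeU hP) (ih _ hK h1)

/-- **Resolutions** on an affine scheme of finite global dimension. -/
theorem bdTo_of_aff [IsNoetherianRing Γ(X, ⊤)] [IsLocallyNoetherian X] {d : ℕ}
    (hd : GD Γ(X, ⊤) d) {K : DerivedCategory X.Modules} (hK : BddIn (IsCoh X) K) :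
    ∃ b, BdTo (LFr X) b K :=
  bdTo_of_bddIn lfr_biprod (fun _ h => h.1) lfr_vanish lfr_epi
    (fun N hN b => by
      have := fin_top hN
      exact bdTo_single_of_pd b d N hN (hd _)) hK

end aff

end Orl.Perf
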