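import Pool.Agent.Work.MP_f714fc_ag.Geo.CohAb
import Pool.Agent.Work.MP_f714fc_ag.Tw.MkB

/-!
# MP_a6e60d_ag: the restriction of modules to open subschemes is exact
-/

open CategoryTheory Limits TopologicalSpace AlgebraicGeometry Opposite

universe u

namespace Orl.Perf

open Fdim

noncomputable section

variable {X Y : Scheme.{u}} (f : X ⟶ Y) [IsOpenImmersion f]

instance : (Scheme.Modules.restrictFunctor f).Additive where
  map_add := rfl

theorem ap_restrict {M N : Y.Modules} (φ : M ⟶ N) (U : X.Opens) (s : Γ(M.restrict f, U)) :
    ap ((Scheme.Modules.restrictFunctor f).map φ) U s = ap φ (f ''ᵁ U) s := rfl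

instance : (Scheme.Modules.restrictFunctor f).PreservesMonomorphisms where
  preserves φ _ := mono_of_injective _ fun U => ap_injective φ (f ''ᵁ U)

instance : (Scheme.Modules.restrictFunctor f).PreservesHomology :=
  Functor.preservesHomology_of_preservesMonos_and_cokernels _

instance : PreservesFiniteLimits (Scheme.Modules.restrictFunctor f) :=
  (Scheme.Modules.restrictFunctor f).preservesFiniteLimits_of_preservesHomology

end

end Orl.Perf
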