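import Pool.Agent.Work.MP_f714fc_ag.Tr.Der

/-!
MP_a6e60d_ag, perfect complexes, 1: thick generation in the derived category of an abelian
category.

`C` is a class of objects of `A` such that every object of `C` is the target of an epimorphism
from an object of `C` which belongs to the thick subcategory `P`, with kernel in `C`; if
`Ext^N(F, G) = 0` for all `F`, `G` in `C`, then all objects of `C`, and all objects of `D(A)` with
bounded cohomology in `C`, belong to `P`.
-/

set_option autoImplicit false

open CategoryTheory Category Limits Pretriangulated Triangulated DerivedCategory Abelian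

attribute [-instance] CategoryTheory.catToReflQuiver

namespace Orl.Perf

universe w v u

section tri

variable {T : Type u} [Category.{v} T] [Preadditive T] [HasZeroObject T] [HasShift T ℤ]
  [∀ n : ℤ, (shiftFunctor T n).Additive] [Pretriangulated T]

/-- If a zero morphism has its cone in the thick subcategory `P`, its source belongs to `P`. -/
theorem mem_of_trW_zero (P : ObjectProperty T) [P.IsTriangulated] [P.IsStableUnderRetracts]
    {X Y : T} (h : P.trW (0 : X ⟶ Y)) : P X := by
  rw [ObjectProperty.trW_iff] at h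
  obtain ⟨Z, g, k, hT, hZ⟩ := h
  obtain ⟨s, hs⟩ := Triangle.coyoneda_exact₁ _ hT (𝟙 (X⟦(1 : ℤ)⟧)) (by
    change 𝟙 _ ≫ (shiftFunctor T (1 : ℤ)).map (0 : X ⟶ Y) = 0
    rw [Functor.map_zero, comp_zero])
  have hX : P (X⟦(1 : ℤ)⟧) :=
    P.prop_of_retract ⟨s, k, hs.symm⟩ hZ
  exact (P.prop_shift_iff_of_isStableUnderShift X (1 : ℤ)).1 hX

end tri

section derived

variable {A : Type u} [Category.{v} A] [Abelian A] [HasDerivedCategory.{w} A]

/-- The connecting morphism of a short exact sequence whose middle term is in `P`. -/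
theorem trW_singleδ (P : ObjectProperty (DerivedCategory A)) [P.IsTriangulated]
    [P.IsStableUnderRetracts] {S : ShortComplex A} (hS : S.ShortExact) (h : P ((singleFunctor A 0).obj S.X₂)) :
    P.trW hS.singleδ := by
  have hT := rot_of_distTriang _ (rot_of_distTriang _ hS.singleTriangle_distinguished)
  exact ObjectProperty.trW.mk P hT
    ((P.prop_shift_iff_of_isStableUnderShift _ (1 : ℤ)).2 h)

/-- The conditions on the class `C`. -/
structure Resolving (P : ObjectProperty (DerivedCategory A)) (C : ObjectProperty A) : Prop where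
  exists_ses : ∀ F, C F → ∃ (S : ShortComplex A) (_ : S.ShortExact), Nonempty (S.X₃ ≅ F) ∧ C S.X₁ ∧
    P ((singleFunctor A 0).obj S.X₂)

theorem Resolving.exists_trW {P : ObjectProperty (DerivedCategory A)} [P.IsTriangulated]
    [P.IsStableUnderRetracts] {C : ObjectProperty A} (h : Resolving P C) (n : ℕ) :
    ∀ F, C F → ∃ (G : A) (_ : C G) (f : (singleFunctor A 0).obj F ⟶
      ((singleFunctor A 0).obj G)⟦(n : ℤ)⟧), P.trW f := by
  induction n with
  | zero =>
    intro F hF
    refine ⟨F, hF, ((shiftFunctorZero (DerivedCategory A) ℤ).symm.app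
      ((singleFunctor A 0).obj F)).hom, ?_⟩
    exact P.trW_of_isIso _
  | succ n ih =>
    intro F hF
    obtain ⟨G, hG, f, hf⟩ := ih F hF
    obtain ⟨S, hS, ⟨e⟩, h1, h2⟩ := h.exists_ses G hG
    let g : (singleFunctor A 0).obj G ⟶ ((singleFunctor A 0).obj S.X₁)⟦(1 : ℤ)⟧ :=
      (singleFunctor A 0).map e.inv ≫ hS.singleδ
    have hg : P.trW g := P.trW.comp_mem _ _ (P.trW_of_isIso _) (trW_singleδ P hS h2)
    refine ⟨S.X₁, h1, f ≫ g⟦(n : ℤ)⟧' ≫
      (shiftFunctorAdd' (DerivedCategory A) (1 : ℤ) (n : ℤ) ((n + 1 : ℕ) : ℤ)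
        (by push_cast; ring)).inv.app _, ?_⟩
    exact P.trW.comp_mem _ _ hf (P.trW.comp_mem _ _ (hg.shift _) (P.trW_of_isIso _))

/-- Objects of `C` belong to `P`. -/
theorem Resolving.single_mem {P : ObjectProperty (DerivedCategory A)} [P.IsTriangulated]
    [P.IsStableUnderRetracts] {C : ObjectProperty A} (h : Resolving P C) {N : ℕ}
    (hN : ∀ F G, C F → C G → ∀ f : (singleFunctor A 0).obj F ⟶
      ((singleFunctor A 0).obj G)⟦(N : ℤ)⟧, f = 0) {F : A} (hF : C F) :
    P ((singleFunctor A 0).obj F) := by
  obtain ⟨G, hG, f, hf⟩ := h.exists_trW N F hF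
  rw [hN F G hF hG f] at hf
  exact mem_of_trW_zero P hf

open Fdim.Tr in
/-- Dévissage: an object of `D(A)` with bounded cohomology belongs to `P` if its cohomology
objects do. -/
theorem mem_of_homology_thick (P : ObjectProperty (DerivedCategory A)) [P.IsTriangulated]
    [P.IsStableUnderRetracts] (n : ℕ) : ∀ (a : ℤ) (K : DerivedCategory A), K.IsGE a →
      K.IsLE (a + n - 1) →
      (∀ i : ℤ, a ≤ i → i < a + n → P ((singleFunctor A 0).obj ((homologyFunctor A i).obj K))) →
      P K := by
  induction n with
  | zero =>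
    intro a K h1 h2 _
    have hz : IsZero K := by
      have h3 : tt.IsLE K (a - 1) := by simpa using h2
      exact tt.isZero K (a - 1) a (by lia)
    exact P.prop_of_isZero hz
  | succ n ih =>
    intro a K h1 h2 h
    have hT := tt.triangleLTGE_distinguished (a + n) K
    have hsub : P ((tt.truncLT (a + n)).obj K) := by
      refine ih a _ inferInstance ?_ fun i hi hi' => ?_
      · exact tt.isLE_truncLT_obj K (a + n) (a + n - 1) (by lia)
      · have := isIso_truncLT K i (a + n) hi'
        exact P.prop_of_iso ((singleFunctor A 0).mapIso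
          (asIso ((homologyFunctor A i).map ((tt.truncLTι (a + n)).app K)))).symm
          (h i hi (by push_cast; lia))
    have hquo : P ((tt.truncGE (a + n)).obj K) := by
      have h3 : ((tt.truncGE (a + n)).obj K).IsGE (a + n) := inferInstance
      have h4 : ((tt.truncGE (a + n)).obj K).IsLE (a + n) := by
        have h5 : K.IsLE (a + n) := by
          have : a + ((n + 1 : ℕ) : ℤ) - 1 = a + n := by push_cast; ring
          rwa [this] at h2
        infer_instance
      obtain ⟨e⟩ := exists_iso_single ((tt.truncGE (a + n)).obj K) (a + n)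
      have := isIso_truncGE K (a + n)
      have h6 : P ((singleFunctor A 0).obj (HH (a + n) ((tt.truncGE (a + n)).obj K))) :=
        P.prop_of_iso ((singleFunctor A 0).mapIso
          (asIso ((homologyFunctor A (a + n)).map ((tt.truncGEπ (a + n)).app K))))
          (h (a + n) (by lia) (by push_cast; lia))
      refine P.prop_of_iso e.symm ?_
      refine P.prop_of_iso (((singleFunctors A).shiftIso (-(a + n)) (a + n) 0 (by lia)).app _) ?_
      exact P.le_shift _ _ h6
    exact P.ext_of_isTriangulatedClosed₂ _ hT hsub hquo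

open Fdim.Tr in
/-- Objects of `D(A)` with bounded cohomology in `C` belong to `P`. -/
theorem Resolving.mem {P : ObjectProperty (DerivedCategory A)} [P.IsTriangulated]
    [P.IsStableUnderRetracts] {C : ObjectProperty A} (h : Resolving P C) {N : ℕ}
    (hN : ∀ F G, C F → C G → ∀ f : (singleFunctor A 0).obj F ⟶
      ((singleFunctor A 0).obj G)⟦(N : ℤ)⟧, f = 0) {K : DerivedCategory A} {a b : ℤ}
    (ha : K.IsGE a) (hb : K.IsLE b) (hK : ∀ i, C ((homologyFunctor A i).obj K)) : P K := by
  refine mem_of_homology_thick P (b + 1 - a).toNat a K ha ?_ fun i _ _ => h.single_mem hN (hK i)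
  exact (tt (A := A)).isLE_of_le K b _ (by lia)

end derived

end Orl.Perf
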